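import Mathlib

/-!
# Multilinear forms in coordinates
-/

set_option autoImplicit false
set_option linter.unusedSectionVars false

namespace Run7.h877.MT

open Matrix

variable {ι : Type} [Fintype ι] {κ : Type} [Fintype κ] [DecidableEq κ]

section

variable {K : Type} [Field K]

/-- The value at `v` of the multilinear form with the coefficients `a`. -/
def ev (a : (κ → ι) → K) (v : κ → ι → K) : K := ∑ i, a i * ∏ j, v j (i j)

/-- The operator `D` kills the multilinear form with the coefficients `a`, as a derivation. -/
def Kills (D : Matrix ι ι K) (a : (κ → ι) → K) : Prop :=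
  ∀ v : κ → ι → K, ∑ j, ev a (Function.update v j (D *ᵥ v j)) = 0

/-- the multilinear map -/
noncomputable def evM (a : (κ → ι) → K) : MultilinearMap K (fun _ : κ => ι → K) K :=
  ∑ i, a i • (MultilinearMap.mkPiAlgebra K κ K).compLinearMap
    fun j => (LinearMap.proj (i j) : (ι → K) →ₗ[K] K)

lemma evM_apply (a : (κ → ι) → K) (v : κ → ι → K) : evM a v = ev a v := by
  rw [evM, _root_.sum_apply, ev]
  refine Finset.sum_congr rfl fun i _ => ?_
  rw [_root_.smul_apply, MultilinearMap.compLinearMap_apply,
    MultilinearMap.mkPiAlgebra_apply, smul_eq_mul]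
  rfl

lemma ev_add_left (a b : (κ → ι) → K) (v : κ → ι → K) : ev (a + b) v = ev a v + ev b v := by
  simp only [ev, Pi.add_apply, add_mul, Finset.sum_add_distrib]

lemma ev_sub_left (a b : (κ → ι) → K) (v : κ → ι → K) : ev (a - b) v = ev a v - ev b v := by
  simp only [ev, Pi.sub_apply, sub_mul, Finset.sum_sub_distrib]

lemma ev_smul_left (c : K) (a : (κ → ι) → K) (v : κ → ι → K) : ev (c • a) v = c * ev a v := by
  simp only [ev, Pi.smul_apply, smul_eq_mul, mul_assoc, Finset.mul_sum]

lemma ev_zero_left (v : κ → ι → K) : ev (0 : (κ → ι) → K) v = 0 := by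
  simp [ev]

variable [DecidableEq ι]

lemma ev_single (a : (κ → ι) → K) (i : κ → ι) : ev a (fun j => Pi.single (i j) 1) = a i := by
  rw [ev, Finset.sum_eq_single i]
  · simp
  · intro i' _ hne
    obtain ⟨j, hj⟩ := Function.ne_iff.1 hne
    rw [Finset.prod_eq_zero (Finset.mem_univ j) (Pi.single_eq_of_ne hj _), mul_zero]
  · intro h; exact absurd (Finset.mem_univ _) h

lemma ev_inj {a b : (κ → ι) → K} (h : ∀ v, ev a v = ev b v) : a = b := by
  funext i
  rw [← ev_single a, ← ev_single b, h]

lemma ev_update_add (a : (κ → ι) → K) (v : κ → ι → K) (j : κ) (x y : ι → K) :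
    ev a (Function.update v j (x + y)) =
      ev a (Function.update v j x) + ev a (Function.update v j y) := by
  simp only [← evM_apply]
  exact (evM a).map_update_add v j x y

lemma ev_update_sub (a : (κ → ι) → K) (v : κ → ι → K) (j : κ) (x y : ι → K) :
    ev a (Function.update v j (x - y)) =
      ev a (Function.update v j x) - ev a (Function.update v j y) := by
  simp only [← evM_apply]
  exact (evM a).map_update_sub v j x y

lemma ev_update_smul (a : (κ → ι) → K) (v : κ → ι → K) (j : κ) (c : K) (x : ι → K) :
    ev a (Function.update v j (c • x)) = c * ev a (Function.update v j x) := by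
  simp only [← evM_apply]
  exact (evM a).map_update_smul v j c x

lemma ev_update_zero (a : (κ → ι) → K) (v : κ → ι → K) (j : κ) :
    ev a (Function.update v j 0) = 0 := by
  simp only [← evM_apply]
  exact (evM a).map_update_zero v j

/-- the coefficients of the derivative -/
def dv (D : Matrix ι ι K) (a : (κ → ι) → K) : (κ → ι) → K :=
  fun i => ∑ j, ∑ k, D k (i j) * a (Function.update i j k)

lemma ev_update_single (a : (κ → ι) → K) (i : κ → ι) (j : κ) (x : ι → K) :
    ev a (Function.update (fun j => Pi.single (i j) 1) j x) =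
      ∑ k, x k * a (Function.update i j k) := by
  have h1 : x = ∑ k, x k • (Pi.single k (1 : K) : ι → K) := by
    funext y
    rw [Finset.sum_apply, Finset.sum_eq_single y]
    · simp
    · intro z _ hz
      simp [Ne.symm hz]
    · intro h; exact absurd (Finset.mem_univ _) h
  conv_lhs => rw [h1]
  rw [← evM_apply, MultilinearMap.map_update_sum]
  refine Finset.sum_congr rfl fun k _ => ?_
  rw [MultilinearMap.map_update_smul, evM_apply, smul_eq_mul]
  congr 1
  have h2 : (Function.update (fun j => (Pi.single (i j) (1 : K) : ι → K)) j (Pi.single k 1)) =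
      fun j' => (Pi.single (Function.update i j k j') (1 : K) : ι → K) := by
    funext j'
    by_cases h : j' = j
    · subst h; simp
    · simp [Function.update_of_ne h]
  rw [h2, ev_single]

lemma sum_update_eq (D : Matrix ι ι K) (a : (κ → ι) → K) (v : κ → ι → K) :
    ∑ j, ev a (Function.update v j (D *ᵥ v j)) = ev (dv D a) v := by
  -- both sides are multilinear in `v`
  have key : (∑ j, (evM a).compLinearMap (fun j' => if j' = j then Matrix.toLin' D else
      LinearMap.id)) = evM (dv D a) := by
    refine Module.Basis.ext_multilinear (fun _ => Pi.basisFun K ι) fun i => ?_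
    rw [_root_.sum_apply, evM_apply]
    have h0 : (fun j => (Pi.basisFun K ι) (i j)) = fun j => (Pi.single (i j) (1 : K) : ι → K) := by
      funext j; exact Pi.basisFun_apply _ _ _
    rw [h0, ev_single, dv]
    refine Finset.sum_congr rfl fun j _ => ?_
    rw [MultilinearMap.compLinearMap_apply, evM_apply]
    have h1 : (fun j' => (if j' = j then Matrix.toLin' D else LinearMap.id)
        (Pi.single (i j') (1 : K) : ι → K)) =
        Function.update (fun j => (Pi.single (i j) (1 : K) : ι → K)) j
          (D *ᵥ Pi.single (i j) 1) := by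
      funext j'
      by_cases h : j' = j
      · subst h
        rw [if_pos rfl, Function.update_self, Matrix.toLin'_apply]
      · rw [if_neg h, Function.update_of_ne h]
        rfl
    rw [h1, ev_update_single]
    refine Finset.sum_congr rfl fun k _ => ?_
    rw [Matrix.mulVec_single_one, Matrix.col_apply]
  have h2 := congrArg (fun f => f v) key
  simp only [_root_.sum_apply, evM_apply, MultilinearMap.compLinearMap_apply] at h2
  rw [← h2]
  refine Finset.sum_congr rfl fun j _ => ?_
  congr 1
  funext j'
  by_cases h : j' = j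
  · subst h
    rw [Function.update_self, if_pos rfl, Matrix.toLin'_apply]
  · rw [Function.update_of_ne h, if_neg h]
    rfl

lemma kills_iff {D : Matrix ι ι K} {a : (κ → ι) → K} : Kills D a ↔ dv D a = 0 := by
  constructor
  · intro h
    refine ev_inj fun v => ?_
    rw [← sum_update_eq, h v, ev_zero_left]
  · intro h v
    rw [sum_update_eq, h, ev_zero_left]

lemma dv_add (D E : Matrix ι ι K) (a : (κ → ι) → K) : dv (D + E) a = dv D a + dv E a := by
  funext i
  simp only [dv, Pi.add_apply, Matrix.add_apply, add_mul, Finset.sum_add_distrib]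

lemma dv_smul (c : K) (D : Matrix ι ι K) (a : (κ → ι) → K) : dv (c • D) a = c • dv D a := by
  funext i
  simp only [dv, Pi.smul_apply, Matrix.smul_apply, smul_eq_mul, mul_assoc, Finset.mul_sum]

lemma dv_add' (D : Matrix ι ι K) (a b : (κ → ι) → K) : dv D (a + b) = dv D a + dv D b := by
  funext i
  simp only [dv, Pi.add_apply, mul_add, Finset.sum_add_distrib]

lemma dv_smul' (c : K) (D : Matrix ι ι K) (a : (κ → ι) → K) : dv D (c • a) = c • dv D a := by
  funext i
  simp only [dv, Pi.smul_apply, smul_eq_mul, Finset.mul_sum]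
  exact Finset.sum_congr rfl fun j _ => Finset.sum_congr rfl fun k _ => by ring

/-- `dv` as a linear map of the operator -/
def dvL (a : (κ → ι) → K) : Matrix ι ι K →ₗ[K] ((κ → ι) → K) where
  toFun D := dv D a
  map_add' D E := dv_add D E a
  map_smul' c D := dv_smul c D a

/-- `dv` as a linear map of the form -/
def dvR (D : Matrix ι ι K) : ((κ → ι) → K) →ₗ[K] ((κ → ι) → K) where
  toFun a := dv D a
  map_add' a b := dv_add' D a b
  map_smul' c a := dv_smul' c D a

lemma Kills.add {D E : Matrix ι ι K} {a : (κ → ι) → K} (h : Kills D a) (h' : Kills E a) :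
    Kills (D + E) a := by
  rw [kills_iff] at *
  rw [dv_add, h, h', add_zero]

lemma Kills.smul (c : K) {D : Matrix ι ι K} {a : (κ → ι) → K} (h : Kills D a) :
    Kills (c • D) a := by
  rw [kills_iff] at *
  rw [dv_smul, h, smul_zero]

lemma Kills.zero {a : (κ → ι) → K} : Kills (0 : Matrix ι ι K) a := by
  rw [kills_iff]
  funext i
  simp [dv]

lemma Kills.neg {D : Matrix ι ι K} {a : (κ → ι) → K} (h : Kills D a) : Kills (-D) a := by
  have := h.smul (-1)
  rwa [neg_one_smul] at this

lemma Kills.sub {D E : Matrix ι ι K} {a : (κ → ι) → K} (h : Kills D a) (h' : Kills E a) :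
    Kills (D - E) a := by
  rw [sub_eq_add_neg]
  exact h.add h'.neg

/-- The transformed form. -/
def ga (g : Matrix ι ι K) (a : (κ → ι) → K) : (κ → ι) → K :=
  fun i => ∑ u, a u * ∏ j, g (u j) (i j)

lemma ev_ga (g : Matrix ι ι K) (a : (κ → ι) → K) (v : κ → ι → K) :
    ev a (fun j => g *ᵥ v j) = ev (ga g a) v := by
  have key : (evM a).compLinearMap (fun _ => Matrix.toLin' g) = evM (ga g a) := by
    refine Module.Basis.ext_multilinear (fun _ => Pi.basisFun K ι) fun i => ?_
    have h0 : (fun j => (Pi.basisFun K ι) (i j)) = fun j => (Pi.single (i j) (1 : K) : ι → K) := by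
      funext j; exact Pi.basisFun_apply _ _ _
    rw [evM_apply, h0, ev_single, MultilinearMap.compLinearMap_apply, evM_apply, ga, ev]
    refine Finset.sum_congr rfl fun u _ => ?_
    congr 1
    refine Finset.prod_congr rfl fun j _ => ?_
    rw [Matrix.toLin'_apply, Matrix.mulVec_single_one, Matrix.col_apply]
  have h2 := congrArg (fun f => f v) key
  simp only [evM_apply, MultilinearMap.compLinearMap_apply, Matrix.toLin'_apply] at h2
  exact h2

/-- the bracket kills -/
lemma Kills.bracket {D E : Matrix ι ι K} {a : (κ → ι) → K} (h : Kills D a) (h' : Kills E a) :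
    Kills (D * E - E * D) a := by
  have hcom : ∀ (A B : Matrix ι ι K) (v : κ → ι → K),
      ∑ j, ∑ j', ev a (Function.update (Function.update v j (A *ᵥ v j)) j'
        (B *ᵥ (Function.update v j (A *ᵥ v j)) j')) =
      ∑ j, ev a (Function.update v j (B *ᵥ (A *ᵥ v j))) +
        ∑ j, ∑ j' ∈ Finset.univ.erase j, ev a (Function.update (Function.update v j (A *ᵥ v j)) j'
          (B *ᵥ v j')) := by
    intro A B v
    rw [← Finset.sum_add_distrib]
    refine Finset.sum_congr rfl fun j _ => ?_
    rw [← Finset.add_sum_erase _ _ (Finset.mem_univ j)]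
    congr 1
    · rw [Function.update_self, Function.update_idem]
    · refine Finset.sum_congr rfl fun j' hj' => ?_
      rw [Function.update_of_ne (Finset.ne_of_mem_erase hj')]
  have hswap : ∀ (A B : Matrix ι ι K) (v : κ → ι → K),
      ∑ j, ∑ j' ∈ Finset.univ.erase j, ev a (Function.update (Function.update v j (A *ᵥ v j)) j'
        (B *ᵥ v j')) = ∑ j, ∑ j' ∈ Finset.univ.erase j,
        ev a (Function.update (Function.update v j (B *ᵥ v j)) j' (A *ᵥ v j')) := by
    intro A B v
    rw [Finset.sum_comm' (t' := Finset.univ) (s' := fun j => Finset.univ.erase j) (by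
      intro x y
      simp only [Finset.mem_univ, Finset.mem_erase, true_and, and_true]
      exact ne_comm)]
    refine Finset.sum_congr rfl fun j _ => Finset.sum_congr rfl fun j' hj' => ?_
    rw [Function.update_comm (Finset.ne_of_mem_erase hj')]
  intro v
  have e1 : ∑ j, ∑ j', ev a (Function.update (Function.update v j (D *ᵥ v j)) j'
        (E *ᵥ (Function.update v j (D *ᵥ v j)) j')) = 0 :=
    Finset.sum_eq_zero fun j _ => h' _
  have e2 : ∑ j, ∑ j', ev a (Function.update (Function.update v j (E *ᵥ v j)) j'
        (D *ᵥ (Function.update v j (E *ᵥ v j)) j')) = 0 :=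
    Finset.sum_eq_zero fun j _ => h _
  rw [hcom] at e1 e2
  rw [hswap] at e1
  have e3 : ∀ j, ev a (Function.update v j ((D * E - E * D) *ᵥ v j)) =
      ev a (Function.update v j (D *ᵥ (E *ᵥ v j))) - ev a (Function.update v j (E *ᵥ (D *ᵥ v j))) := by
    intro j
    rw [Matrix.sub_mulVec, ← Matrix.mulVec_mulVec, ← Matrix.mulVec_mulVec, ev_update_sub]
  rw [Finset.sum_congr rfl fun j _ => e3 j, Finset.sum_sub_distrib]
  linear_combination e2 - e1

end

end Run7.h877.MT
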