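import Mathlib
import Pool.Agent.Run7.h877.MT.Ar

/-!
# Rational solutions of rational linear equations
-/

set_option autoImplicit false
set_option linter.unusedSectionVars false

namespace Run7.h877.MT

open Matrix Module

variable {F : Type} [Field F] [CharZero F]

/-- rational coordinates as coordinates in `F` -/
def cst (F : Type) [Field F] {α : Type} (x : α → ℚ) : α → F := fun i => (x i : F)

/-- the coordinates under a functional -/
def fn {α : Type} (φ : F →ₗ[ℚ] ℚ) (x : α → F) : α → ℚ := fun i => φ (x i)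

lemma phi_mul_cast (φ : F →ₗ[ℚ] ℚ) (c : F) (q : ℚ) : φ (c * (q : F)) = q * φ c := by
  have h1 : c * (q : F) = q • c := by rw [Rat.smul_def, mul_comm]
  rw [h1, map_smul, smul_eq_mul]

lemma phi_cast_mul (φ : F →ₗ[ℚ] ℚ) (c : F) (q : ℚ) : φ ((q : F) * c) = q * φ c := by
  rw [mul_comm, phi_mul_cast]

/-- the multiplication followed by a functional -/
def phiMul (φ : F →ₗ[ℚ] ℚ) (c : F) : F →ₗ[ℚ] ℚ where
  toFun x := φ (c * x)
  map_add' x y := by rw [mul_add, map_add]
  map_smul' q x := by rw [mul_smul_comm, map_smul]; rfl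

/-- The span over `F` of the rational vectors. -/
def spF (F : Type) [Field F] {α : Type} (S : Submodule ℚ (α → ℚ)) : Submodule F (α → F) :=
  Submodule.span F {x | ∃ s ∈ S, x = cst F s}

lemma fn_mem {α : Type} {S : Submodule ℚ (α → ℚ)} {x : α → F} (hx : x ∈ spF F S) :
    ∀ φ : F →ₗ[ℚ] ℚ, fn φ x ∈ S := by
  rw [spF] at hx
  induction hx using Submodule.span_induction with
  | mem x hx =>
    obtain ⟨s, hs, rfl⟩ := hx
    intro φ
    have h1 : fn φ (cst F s) = φ 1 • s := by
      funext i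
      rw [fn, cst, Pi.smul_apply, smul_eq_mul]
      have := phi_mul_cast φ 1 (s i)
      rw [one_mul] at this
      rw [this, mul_comm]
    rw [h1]
    exact S.smul_mem _ hs
  | zero =>
    intro φ
    have h1 : fn φ (0 : α → F) = 0 := by funext i; simp [fn]
    rw [h1]; exact S.zero_mem
  | add x y _ _ hx hy =>
    intro φ
    have h1 : fn φ (x + y) = fn φ x + fn φ y := by funext i; simp [fn]
    rw [h1]; exact S.add_mem (hx φ) (hy φ)
  | smul c x _ hx =>
    intro φ
    exact hx (phiMul φ c)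

lemma mem_of_fn {α : Type} [Finite α] {S : Submodule ℚ (α → ℚ)} {x : α → F}
    (h : ∀ φ : F →ₗ[ℚ] ℚ, fn φ x ∈ S) : x ∈ spF F S := by
  classical
  have := Fintype.ofFinite α
  let b := Basis.ofVectorSpace ℚ F
  let s : Finset _ := Finset.univ.biUnion fun i => (b.repr (x i)).support
  have h1 : x = ∑ j ∈ s, (b j) • cst F (fn (b.coord j) x) := by
    funext i
    rw [Finset.sum_apply]
    have h2 : x i = ∑ j ∈ s, (b.repr (x i) j) • b j := by
      conv_lhs => rw [← b.linearCombination_repr (x i), Finsupp.linearCombination_apply,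
        Finsupp.sum]
      refine Finset.sum_subset (fun j hj => Finset.mem_biUnion.2 ⟨i, Finset.mem_univ _, hj⟩) ?_
      intro j _ hj
      rw [Finsupp.notMem_support_iff.1 hj, zero_smul]
    conv_lhs => rw [h2]
    refine Finset.sum_congr rfl fun j _ => ?_
    rw [Pi.smul_apply, smul_eq_mul, cst, fn, Basis.coord_apply, Rat.smul_def, mul_comm]
  rw [h1]
  exact Submodule.sum_mem _ fun j _ => Submodule.smul_mem _ _ (Submodule.subset_span ⟨_, h _, rfl⟩)

variable {ι : Type} [Fintype ι] [DecidableEq ι]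

/-- the matrix with entries in `F` -/
def cM (F : Type) [Field F] (M : Matrix ι ι ℚ) : Matrix ι ι F := M.map (fun q : ℚ => (q : F))

lemma cM_apply (M : Matrix ι ι ℚ) (i j : ι) : cM F M i j = (M i j : F) := rfl

lemma cM_mul (M N : Matrix ι ι ℚ) : cM F (M * N) = cM F M * cM F N := by
  ext i j
  simp [cM, Matrix.mul_apply]

lemma cM_add (M N : Matrix ι ι ℚ) : cM F (M + N) = cM F M + cM F N := by
  ext i j
  simp [cM]

lemma cM_sub (M N : Matrix ι ι ℚ) : cM F (M - N) = cM F M - cM F N := by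
  ext i j
  simp [cM]

lemma cM_one : cM F (1 : Matrix ι ι ℚ) = 1 := by
  ext i j
  rw [cM_apply, Matrix.one_apply, Matrix.one_apply]
  split_ifs <;> simp

lemma cM_inj {M N : Matrix ι ι ℚ} (h : cM F M = cM F N) : M = N := by
  ext i j
  have h1 := congrFun (congrFun h i) j
  rw [cM_apply, cM_apply] at h1
  exact_mod_cast h1

/-- the rational matrix given by a functional -/
def fM (φ : F →ₗ[ℚ] ℚ) (M : Matrix ι ι F) : Matrix ι ι ℚ := M.map φ

lemma fM_mul_cM (φ : F →ₗ[ℚ] ℚ) (M : Matrix ι ι F) (N : Matrix ι ι ℚ) :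
    fM φ (M * cM F N) = fM φ M * N := by
  ext i j
  rw [fM, Matrix.map_apply, Matrix.mul_apply, Matrix.mul_apply, map_sum]
  refine Finset.sum_congr rfl fun k _ => ?_
  rw [cM_apply, phi_mul_cast, mul_comm]
  rfl

lemma fM_cM_mul (φ : F →ₗ[ℚ] ℚ) (M : Matrix ι ι F) (N : Matrix ι ι ℚ) :
    fM φ (cM F N * M) = N * fM φ M := by
  ext i j
  rw [fM, Matrix.map_apply, Matrix.mul_apply, Matrix.mul_apply, map_sum]
  refine Finset.sum_congr rfl fun k _ => ?_
  rw [cM_apply, phi_cast_mul]
  rfl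

variable {κ : Type} [Fintype κ] [DecidableEq κ]

lemma fn_dv_cM (φ : F →ₗ[ℚ] ℚ) (D : Matrix ι ι ℚ) (a : (κ → ι) → F) :
    fn φ (dv (cM F D) a) = dv D (fn φ a) := by
  funext i
  rw [fn, dv, dv, map_sum]
  refine Finset.sum_congr rfl fun j _ => ?_
  rw [map_sum]
  refine Finset.sum_congr rfl fun k _ => ?_
  rw [cM_apply, phi_cast_mul]
  rfl

lemma fn_dv_cst (φ : F →ₗ[ℚ] ℚ) (D : Matrix ι ι F) (a : (κ → ι) → ℚ) :
    fn φ (dv D (cst F a)) = dv (fM φ D) a := by
  funext i
  rw [fn, dv, dv, map_sum]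
  refine Finset.sum_congr rfl fun j _ => ?_
  rw [map_sum]
  refine Finset.sum_congr rfl fun k _ => ?_
  rw [cst, phi_mul_cast, mul_comm]
  rfl

lemma dv_cst (D : Matrix ι ι ℚ) (a : (κ → ι) → ℚ) : dv (cM F D) (cst F a) = cst F (dv D a) := by
  funext i
  rw [dv, cst, dv, Rat.cast_sum]
  refine Finset.sum_congr rfl fun j _ => ?_
  rw [Rat.cast_sum]
  refine Finset.sum_congr rfl fun k _ => ?_
  rw [cM_apply, cst, Rat.cast_mul]

lemma cst_inj {α : Type} {x y : α → ℚ} (h : cst F x = cst F y) : x = y := by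
  funext i
  have := congrFun h i
  simp only [cst] at this
  exact_mod_cast this

lemma kills_cst_iff {D : Matrix ι ι ℚ} {a : (κ → ι) → ℚ} :
    Kills (cM F D) (cst F a) ↔ Kills D a := by
  rw [kills_iff, kills_iff, dv_cst]
  constructor
  · intro h
    refine cst_inj (F := F) (h.trans ?_)
    funext i; simp [cst]
  · intro h
    rw [h]; funext i; simp [cst]

/-- A form killed by the rational operators is a combination of rational forms. -/
lemma kills_fn {D : Matrix ι ι ℚ} {a : (κ → ι) → F} (h : Kills (cM F D) a) (φ : F →ₗ[ℚ] ℚ) :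
    Kills D (fn φ a) := by
  rw [kills_iff] at h ⊢
  rw [← fn_dv_cM, h]
  funext i; simp [fn]

lemma kills_fM {D : Matrix ι ι F} {a : (κ → ι) → ℚ} (h : Kills D (cst F a)) (φ : F →ₗ[ℚ] ℚ) :
    Kills (fM φ D) a := by
  rw [kills_iff] at h ⊢
  rw [← fn_dv_cst, h]
  funext i; simp [fn]

/-- the span over `F` of rational matrices -/
def spM (F : Type) [Field F] (S : Submodule ℚ (Matrix ι ι ℚ)) : Submodule F (Matrix ι ι F) :=
  Submodule.span F {x | ∃ s ∈ S, x = cM F s}

lemma mem_of_fM {S : Submodule ℚ (Matrix ι ι ℚ)} {M : Matrix ι ι F}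
    (h : ∀ φ : F →ₗ[ℚ] ℚ, fM φ M ∈ S) : M ∈ spM F S := by
  let e : Matrix ι ι ℚ ≃ₗ[ℚ] (ι × ι → ℚ) :=
    { toFun := fun M x => M x.1 x.2
      invFun := fun x => Matrix.of fun i j => x (i, j)
      left_inv := fun M => rfl
      right_inv := fun x => rfl
      map_add' := fun M N => rfl
      map_smul' := fun c M => rfl }
  let e' : (ι × ι → F) →ₗ[F] Matrix ι ι F :=
    { toFun := fun x => Matrix.of fun i j => x (i, j)
      map_add' := fun M N => rfl
      map_smul' := fun c M => rfl }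
  have h1 : (fun x : ι × ι => M x.1 x.2) ∈ spF F (S.map e.toLinearMap) := by
    refine mem_of_fn fun φ => ?_
    exact ⟨fM φ M, h φ, rfl⟩
  have h2 : e' (fun x : ι × ι => M x.1 x.2) = M := rfl
  rw [← h2]
  have h3 := Submodule.mem_map_of_mem (f := e') h1
  refine (Submodule.map_le_iff_le_comap.2 ?_) h3
  rw [spF, Submodule.span_le]
  rintro _ ⟨s, ⟨M', hM', rfl⟩, rfl⟩
  exact Submodule.subset_span ⟨M', hM', rfl⟩

end Run7.h877.MT
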