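import Mathlib
import Pool.Agent.Run7.h877.MT.Ar

/-!
# The quartic form of a projector
-/

set_option autoImplicit false
set_option linter.unusedSectionVars false

namespace Run7.h877.MT

open Matrix

variable {ι : Type} [Fintype ι] [DecidableEq ι] {K : Type} [Field K]

lemma dot_left (A : Matrix ι ι K) (x y : ι → K) : (A *ᵥ x) ⬝ᵥ y = x ⬝ᵥ (Aᵀ *ᵥ y) := by
  rw [Matrix.dotProduct_mulVec, Matrix.vecMul_transpose]

lemma vec_left (A B : Matrix ι ι K) (x : ι → K) : (A *ᵥ x) ᵥ* B = x ᵥ* (Aᵀ * B) := by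
  rw [← Matrix.vecMul_vecMul, Matrix.vecMul_transpose]

/-- the coefficients of the bilinear form `(x, y) ↦ β(c x, y)` -/
def bil (β c : Matrix ι ι K) : (Fin 2 → ι) → K :=
  fun i => (cᵀ * β) (i ⟨0, by norm_num⟩) (i ⟨1, by norm_num⟩)

lemma ev_bil (β c : Matrix ι ι K) (v : Fin 2 → ι → K) :
    ev (bil β c) v = (c *ᵥ v ⟨0, by norm_num⟩) ⬝ᵥ (β *ᵥ v ⟨1, by norm_num⟩) := by
  have h1 : ev (bil β c) v = ∑ i : Fin 2 → ι, (cᵀ * β) (i 0) (i 1) * ∏ j : Fin 2, v j (i j) := rfl
  rw [h1]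
  have h2 : ∑ i : Fin 2 → ι, (cᵀ * β) (i 0) (i 1) * ∏ j : Fin 2, v j (i j) =
      ∑ x : ι × ι, (cᵀ * β) x.1 x.2 * (v (0 : Fin 2) x.1 * v (1 : Fin 2) x.2) := by
    refine Fintype.sum_equiv (finTwoArrowEquiv ι) _ _ fun i => ?_
    rw [Fin.prod_univ_two]
    rfl
  rw [h2, Fintype.sum_prod_type]
  have h3 : (c *ᵥ v ⟨0, by norm_num⟩) ⬝ᵥ (β *ᵥ v ⟨1, by norm_num⟩) =
      v (0 : Fin 2) ⬝ᵥ ((cᵀ * β) *ᵥ v (1 : Fin 2)) := by
    rw [dot_left, Matrix.mulVec_mulVec]
    rfl
  rw [h3, dotProduct]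
  refine Finset.sum_congr rfl fun x _ => ?_
  rw [Matrix.mulVec, dotProduct, Finset.mul_sum]
  refine Finset.sum_congr rfl fun y _ => ?_
  ring

/-- `D` is skew for the form. -/
def Skew (β D : Matrix ι ι K) : Prop := Dᵀ * β + β * D = 0

lemma dot_mulVec_eq_zero {M : Matrix ι ι K} (h : ∀ x y : ι → K, x ⬝ᵥ (M *ᵥ y) = 0) : M = 0 := by
  ext i j
  have := h (Pi.single i 1) (Pi.single j 1)
  rw [Matrix.mulVec_single_one, single_one_dotProduct] at this
  exact this

lemma kills_bil_iff {β c D : Matrix ι ι K} :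
    Kills D (bil β c) ↔ Dᵀ * (cᵀ * β) + (cᵀ * β) * D = 0 := by
  have key : ∀ v : Fin 2 → ι → K,
      ∑ j, ev (bil β c) (Function.update v j (D *ᵥ v j)) =
        v ⟨0, by norm_num⟩ ⬝ᵥ ((Dᵀ * (cᵀ * β) + (cᵀ * β) * D) *ᵥ v ⟨1, by norm_num⟩) := by
    intro v
    have h0 : ∑ j, ev (bil β c) (Function.update v j (D *ᵥ v j)) =
        ev (bil β c) (Function.update v ⟨0, by norm_num⟩ (D *ᵥ v ⟨0, by norm_num⟩)) +
        ev (bil β c) (Function.update v ⟨1, by norm_num⟩ (D *ᵥ v ⟨1, by norm_num⟩)) :=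
      Fin.sum_univ_two _
    rw [h0, ev_bil, ev_bil, Function.update_self, Function.update_of_ne (by decide),
      Function.update_self, Function.update_of_ne (by decide)]
    rw [Matrix.add_mulVec, dotProduct_add]
    congr 1
    · rw [dot_left, dot_left, Matrix.mulVec_mulVec, Matrix.mulVec_mulVec, Matrix.mul_assoc]
    · rw [dot_left, Matrix.mulVec_mulVec, Matrix.mulVec_mulVec, Matrix.mul_assoc]
  constructor
  · intro h
    refine dot_mulVec_eq_zero fun x y => ?_
    have h1 := key (fun j => if j = ⟨0, by norm_num⟩ then x else y)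
    rw [h _] at h1
    exact h1.symm
  · intro h v
    rw [key, h, Matrix.zero_mulVec, dotProduct_zero]

lemma kills_bil_one {β D : Matrix ι ι K} : Kills D (bil β 1) ↔ Skew β D := by
  rw [kills_bil_iff, Matrix.transpose_one, Matrix.one_mul, Skew]

/-- Skew operators which kill `β(c x, y)` commute with `c`. -/
lemma comm_of_kills {β c D : Matrix ι ι K} (hβ : IsUnit β.det) (hD : Skew β D)
    (h : Kills D (bil β c)) : D * c = c * D := by
  have h1 := kills_bil_iff.1 h
  have h2 : Dᵀ * (cᵀ * β) + (cᵀ * β) * D = ((c * D - D * c)ᵀ) * β := by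
    have h3 : β * D = -(Dᵀ * β) := by
      rw [eq_neg_iff_add_eq_zero, add_comm]; exact hD
    rw [Matrix.mul_assoc cᵀ, h3, Matrix.transpose_sub, Matrix.transpose_mul, Matrix.transpose_mul]
    noncomm_ring
  rw [h2] at h1
  have h4 : (c * D - D * c)ᵀ = 0 := by
    have h5 := congrArg (· * β⁻¹) h1
    simp only [Matrix.mul_assoc, Matrix.mul_nonsing_inv β hβ, Matrix.mul_one, Matrix.zero_mul] at h5
    exact h5
  have h5 := congrArg Matrix.transpose h4
  rw [Matrix.transpose_transpose, Matrix.transpose_zero, sub_eq_zero] at h5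
  exact h5.symm

lemma kills_of_comm {β c D : Matrix ι ι K} (hD : Skew β D)
    (h : D * c = c * D) : Kills D (bil β c) := by
  rw [kills_bil_iff]
  have h3 : β * D = -(Dᵀ * β) := by
    rw [eq_neg_iff_add_eq_zero, add_comm]; exact hD
  have h4 := congrArg Matrix.transpose h
  rw [Matrix.transpose_mul, Matrix.transpose_mul] at h4
  rw [Matrix.mul_assoc cᵀ, h3, ← Matrix.mul_assoc, ← h4]
  noncomm_ring

/-- the operator `z ↦ β(x, z) y` -/
def rk (β : Matrix ι ι K) (x y : ι → K) : Matrix ι ι K := vecMulVec y (x ᵥ* β)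

lemma rk_add_left (β : Matrix ι ι K) (x x' y : ι → K) :
    rk β (x + x') y = rk β x y + rk β x' y := by
  rw [rk, rk, rk, Matrix.add_vecMul, Matrix.vecMulVec_add]

lemma rk_smul_left (β : Matrix ι ι K) (c : K) (x y : ι → K) :
    rk β (c • x) y = c • rk β x y := by
  rw [rk, rk, Matrix.smul_vecMul, Matrix.vecMulVec_smul]

lemma rk_add_right (β : Matrix ι ι K) (x y y' : ι → K) :
    rk β x (y + y') = rk β x y + rk β x y' := by
  rw [rk, rk, rk, Matrix.add_vecMulVec]

lemma rk_smul_right (β : Matrix ι ι K) (c : K) (x y : ι → K) :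
    rk β x (c • y) = c • rk β x y := by
  rw [rk, rk, Matrix.smul_vecMulVec]

lemma rk_single (β : Matrix ι ι K) (hβ : IsUnit β.det) (i j : ι) :
    rk β (Pi.single j 1 ᵥ* β⁻¹) (Pi.single i 1) = Matrix.single i j 1 := by
  rw [rk, Matrix.vecMul_vecMul, Matrix.nonsing_inv_mul β hβ, Matrix.vecMul_one]
  ext a b
  rw [Matrix.vecMulVec_apply, Matrix.single_apply, Pi.single_apply, Pi.single_apply]
  by_cases h1 : a = i
  · by_cases h2 : b = j
    · simp [h1, h2]
    · simp [h1, h2, Ne.symm h2]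
  · simp [h1, Ne.symm h1]

/-- linear maps on matrices which agree on the operators `rk` are equal -/
lemma ext_rk {β : Matrix ι ι K} (hβ : IsUnit β.det) {f g : Matrix ι ι K →ₗ[K] Matrix ι ι K}
    (h : ∀ x y, f (rk β x y) = g (rk β x y)) : f = g := by
  refine (Matrix.stdBasis K ι ι).ext fun x => ?_
  rw [Matrix.stdBasis_eq_single, ← rk_single β hβ]
  exact h _ _

/-- The quartic form of the linear map `Q` of the operators. -/
def qf (β : Matrix ι ι K) (Q : Matrix ι ι K →ₗ[K] Matrix ι ι K) : (Fin 4 → ι) → K :=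
  fun i => (Q (rk β (Pi.single (i ⟨0, by norm_num⟩) 1) (Pi.single (i ⟨1, by norm_num⟩) 1)) *ᵥ
    Pi.single (i ⟨2, by norm_num⟩) 1) ⬝ᵥ (β *ᵥ Pi.single (i ⟨3, by norm_num⟩) 1)

/-- the function -/
def qv (β : Matrix ι ι K) (Q : Matrix ι ι K →ₗ[K] Matrix ι ι K) (v : Fin 4 → ι → K) : K :=
  (Q (rk β (v 0) (v 1)) *ᵥ v 2) ⬝ᵥ (β *ᵥ v 3)

/-- the quartic form as a multilinear map -/
noncomputable def qm (β : Matrix ι ι K) (Q : Matrix ι ι K →ₗ[K] Matrix ι ι K) :
    MultilinearMap K (fun _ : Fin 4 => ι → K) K :=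
  MultilinearMap.mk' (qv β Q) (by
    intro v i x y
    fin_cases i <;> simp [qv, Function.update, rk_add_left, rk_add_right, Matrix.add_mulVec,
      Matrix.mulVec_add, add_dotProduct, dotProduct_add]) (by
    intro v i c x
    fin_cases i <;> simp [qv, Function.update, rk_smul_left, rk_smul_right, Matrix.smul_mulVec,
      Matrix.mulVec_smul, smul_dotProduct, dotProduct_smul])

lemma ev_qf (β : Matrix ι ι K) (Q : Matrix ι ι K →ₗ[K] Matrix ι ι K) (v : Fin 4 → ι → K) :
    ev (qf β Q) v = qv β Q v := by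
  have key : (evM (κ := Fin 4) (qf β Q)) = qm β Q := by
    refine Module.Basis.ext_multilinear (fun _ => Pi.basisFun K ι) fun i => ?_
    have h0 : (fun j => (Pi.basisFun K ι) (i j)) = fun j => (Pi.single (i j) (1 : K) : ι → K) := by
      funext j; exact Pi.basisFun_apply _ _ _
    rw [h0, evM_apply, ev_single]
    rfl
  have h1 := congrArg (fun f => f v) key
  simp only [evM_apply] at h1
  exact h1

lemma rk_skew {β D : Matrix ι ι K} (hD : Skew β D) (x y : ι → K) :
    rk β (D *ᵥ x) y + rk β x (D *ᵥ y) = D * rk β x y - rk β x y * D := by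
  have h3 : Dᵀ * β = -(β * D) := by
    rw [eq_neg_iff_add_eq_zero]; exact hD
  have h4 : (D *ᵥ x) ᵥ* β = -((x ᵥ* β) ᵥ* D) := by
    rw [vec_left, h3, Matrix.vecMul_neg, Matrix.vecMul_vecMul]
  rw [rk, rk, rk, h4, Matrix.vecMulVec_neg, Matrix.mul_vecMulVec, Matrix.vecMulVec_mul]
  abel

/-- The derivative of the quartic form. -/
lemma sum_qf {β D : Matrix ι ι K} (hD : Skew β D) (Q : Matrix ι ι K →ₗ[K] Matrix ι ι K)
    (v : Fin 4 → ι → K) :
    ∑ j, ev (qf β Q) (Function.update v j (D *ᵥ v j)) =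
      ((Q (D * rk β (v (0 : Fin 4)) (v (1 : Fin 4)) - rk β (v (0 : Fin 4)) (v (1 : Fin 4)) * D) -
        (D * Q (rk β (v (0 : Fin 4)) (v (1 : Fin 4))) -
          Q (rk β (v (0 : Fin 4)) (v (1 : Fin 4))) * D)) *ᵥ v (2 : Fin 4)) ⬝ᵥ
        (β *ᵥ v (3 : Fin 4)) := by
  have h0 : ∑ j, ev (qf β Q) (Function.update v j (D *ᵥ v j)) =
      ∑ j : Fin 4, qv β Q (Function.update (show Fin 4 → ι → K from v) j
        (D *ᵥ (show Fin 4 → ι → K from v) j)) := by
    refine Finset.sum_congr rfl fun j _ => ?_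
    rw [ev_qf]
  rw [h0, Fin.sum_univ_four, ← rk_skew hD]
  have h5 : ∀ z w : ι → K, z ⬝ᵥ (β *ᵥ (D *ᵥ w)) = -((D *ᵥ z) ⬝ᵥ (β *ᵥ w)) := by
    intro z w
    have h3 : Dᵀ * β = -(β * D) := by
      rw [eq_neg_iff_add_eq_zero]; exact hD
    rw [dot_left, Matrix.mulVec_mulVec, Matrix.mulVec_mulVec, h3, Matrix.neg_mulVec,
      dotProduct_neg, neg_neg]
  simp only [qv, Function.update_self, Function.update_of_ne (show (1 : Fin 4) ≠ 0 by decide),
    Function.update_of_ne (show (2 : Fin 4) ≠ 0 by decide),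
    Function.update_of_ne (show (3 : Fin 4) ≠ 0 by decide),
    Function.update_of_ne (show (0 : Fin 4) ≠ 1 by decide),
    Function.update_of_ne (show (2 : Fin 4) ≠ 1 by decide),
    Function.update_of_ne (show (3 : Fin 4) ≠ 1 by decide),
    Function.update_of_ne (show (0 : Fin 4) ≠ 2 by decide),
    Function.update_of_ne (show (1 : Fin 4) ≠ 2 by decide),
    Function.update_of_ne (show (3 : Fin 4) ≠ 2 by decide),
    Function.update_of_ne (show (0 : Fin 4) ≠ 3 by decide),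
    Function.update_of_ne (show (1 : Fin 4) ≠ 3 by decide),
    Function.update_of_ne (show (2 : Fin 4) ≠ 3 by decide)]
  rw [h5]
  simp only [map_add, Matrix.add_mulVec, Matrix.sub_mulVec, add_dotProduct, sub_dotProduct,
    ← Matrix.mulVec_mulVec]
  ring

/-- The quartic form is killed by `D` if and only if `Q` commutes with the bracket with `D`. -/
lemma kills_qf_iff {β D : Matrix ι ι K} (hβ : IsUnit β.det) (hD : Skew β D)
    (Q : Matrix ι ι K →ₗ[K] Matrix ι ι K) :
    Kills D (qf β Q) ↔ ∀ X, Q (D * X - X * D) = D * Q X - Q X * D := by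
  constructor
  · intro h
    have h1 : ∀ x y, Q (D * rk β x y - rk β x y * D) = D * Q (rk β x y) - Q (rk β x y) * D := by
      intro x y
      rw [← sub_eq_zero]
      obtain ⟨M, hM⟩ : ∃ M, M = Q (D * rk β x y - rk β x y * D) -
        (D * Q (rk β x y) - Q (rk β x y) * D) := ⟨_, rfl⟩
      rw [← hM]
      have h2 : Mᵀ * β = 0 := by
        refine dot_mulVec_eq_zero fun z w => ?_
        have h3 := sum_qf hD Q (![x, y, z, w] : Fin 4 → ι → K)
        rw [h _] at h3
        have h4 : (0 : K) = (M *ᵥ z) ⬝ᵥ (β *ᵥ w) := by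
          rw [hM]
          exact h3
        rw [h4, dot_left, Matrix.mulVec_mulVec]
      have h5 := congrArg (· * β⁻¹) h2
      simp only [Matrix.mul_assoc, Matrix.mul_nonsing_inv β hβ, Matrix.mul_one,
        Matrix.zero_mul] at h5
      have h6 := congrArg Matrix.transpose h5
      rw [Matrix.transpose_transpose, Matrix.transpose_zero] at h6
      exact h6
    let f : Matrix ι ι K →ₗ[K] Matrix ι ι K := Q ∘ₗ (LinearMap.mulLeft K D - LinearMap.mulRight K D)
    let g : Matrix ι ι K →ₗ[K] Matrix ι ι K := (LinearMap.mulLeft K D - LinearMap.mulRight K D) ∘ₗ Q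
    have h2 : f = g := ext_rk hβ fun x y => h1 x y
    intro X
    exact congrArg (fun F => F X) h2
  · intro h v
    rw [sum_qf hD, h, sub_self, Matrix.zero_mulVec, zero_dotProduct]

/-- The quartic form of an equivariant map is an invariant. -/
lemma qf_inv {β g g' : Matrix ι ι K} {n : K} (hg : gᵀ * β * g = n • β) (hgg : g' * g = 1)
    (Q : Matrix ι ι K →ₗ[K] Matrix ι ι K) (hQ : ∀ X, Q (g * X * g') = g * Q X * g')
    (v : Fin 4 → ι → K) :
    ev (qf β Q) (fun j => g *ᵥ v j) = n ^ 2 * ev (qf β Q) v := by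
  have hgg' : g * g' = 1 := mul_eq_one_comm.1 hgg
  have h1 : gᵀ * β = n • (β * g') := by
    have h2 := congrArg (· * g') hg
    simp only [Matrix.mul_assoc, hgg', Matrix.mul_one, Matrix.smul_mul] at h2
    exact h2
  have h2 : ∀ x y : ι → K, rk β (g *ᵥ x) (g *ᵥ y) = n • (g * rk β x y * g') := by
    intro x y
    rw [rk, rk, vec_left, h1, Matrix.mul_vecMulVec, Matrix.vecMulVec_mul, Matrix.vecMul_smul,
      Matrix.vecMulVec_smul, Matrix.vecMul_vecMul]
  have h3 : ∀ X : Matrix ι ι K, (g * X * g') *ᵥ (g *ᵥ v (2 : Fin 4)) =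
      g *ᵥ (X *ᵥ v (2 : Fin 4)) := by
    intro X
    rw [Matrix.mulVec_mulVec, Matrix.mul_assoc, hgg, Matrix.mul_one, Matrix.mulVec_mulVec]
  have h4 : ∀ z w : ι → K, (g *ᵥ z) ⬝ᵥ (β *ᵥ (g *ᵥ w)) = n * (z ⬝ᵥ (β *ᵥ w)) := by
    intro z w
    rw [dot_left, Matrix.mulVec_mulVec, Matrix.mulVec_mulVec, hg,
      Matrix.smul_mulVec, dotProduct_smul, smul_eq_mul]
  rw [ev_qf, ev_qf, qv, qv, h2, map_smul, hQ, Matrix.smul_mulVec, smul_dotProduct, h3, h4,
    smul_eq_mul, pow_two, mul_assoc]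

/-- **The complement commutes.** -/
lemma comm_compl {L : Submodule K (Matrix ι ι K)} {Q : Matrix ι ι K →ₗ[K] Matrix ι ι K}
    (hQL : ∀ X, Q X ∈ L) (hQ1 : ∀ X ∈ L, Q X = X)
    (hLQ : ∀ l ∈ L, ∀ X, Q (l * X - X * l) = l * Q X - Q X * l) {D : Matrix ι ι K}
    (hD : ∀ X, Q (D * X - X * D) = D * Q X - Q X * D) {l : Matrix ι ι K} (hl : l ∈ L) :
    (D - Q D) * l = l * (D - Q D) := by
  have h1 : l * D - D * l ∈ L := by
    have h2 := hD l
    rw [hQ1 l hl] at h2
    have h3 : l * D - D * l = -(D * l - l * D) := by abel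
    rw [h3, ← h2]
    exact L.neg_mem (hQL _)
  have h2 := hLQ l hl D
  rw [hQ1 _ h1] at h2
  rw [sub_mul, mul_sub]
  have h3 : l * D - D * l = l * Q D - Q D * l := h2
  have h4 : D * l - Q D * l - (l * D - l * Q D) = 0 := by
    have h5 : D * l - Q D * l - (l * D - l * Q D) = (l * Q D - Q D * l) - (l * D - D * l) := by abel
    rw [h5, h3, sub_self]
  exact sub_eq_zero.1 h4

end Run7.h877.MT
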