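import Mathlib
import Pool.Agent.Run7.h877.MT.Bc
import Pool.Agent.Run7.h877.MT.Core

/-!
# The Lie algebra of the Hodge forms of a polarized rational Hodge structure
-/

set_option autoImplicit false
set_option linter.unusedSectionVars false

namespace Run7.h877.MT

open Matrix Module
open scoped MatrixOrder ComplexOrder

/-- A polarized rational Hodge structure of weight `w` on the vector space `ℚ ^ ι`: the subspaces
`V q = H^(q, w - q)` of `ℂ ^ ι` have the direct sum `ℂ ^ ι`, the complex conjugate of `V q` is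
`V (w - q)`, and `β` is the matrix of a rational bilinear form which vanishes on `V q × V r` for
`q + r ≠ w` and such that `i ^ (q - (w - q)) β(x, x̄) > 0` for nonzero `x ∈ V q`. -/
structure PolHS (ι : Type) [Fintype ι] [DecidableEq ι] where
  w : ℕ
  V : ℤ → Submodule ℂ (ι → ℂ)
  internal : DirectSum.IsInternal V
  conj : ∀ q, ∀ x ∈ V q, star x ∈ V (w - q)
  β : Matrix ι ι ℚ
  orth : ∀ q r : ℤ, q + r ≠ w → ∀ x ∈ V q, ∀ y ∈ V r, x ⬝ᵥ (cM ℂ β *ᵥ y) = 0
  pos : ∀ q, ∀ x ∈ V q, x ≠ 0 →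
    ∃ t : ℝ, 0 < t ∧ Complex.I ^ (2 * q - (w : ℤ)) * (x ⬝ᵥ (cM ℂ β *ᵥ star x)) = t

variable {ι : Type} [Fintype ι] [DecidableEq ι]

/-- The rational multilinear form in `n` variables with coefficients `a` is a Hodge class of type
`(m, m)`: it vanishes on `V (q 0) × ⋯ × V (q (n - 1))` unless `q 0 + ⋯ + q (n - 1) = m`. -/
def IsHodge (H : PolHS ι) (m : ℕ) {n : ℕ} (a : (Fin n → ι) → ℚ) : Prop :=
  ∀ (q : Fin n → ℤ) (v : Fin n → ι → ℂ), (∀ j, v j ∈ H.V (q j)) → ∑ j, q j ≠ m →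
    ev (cst ℂ a) v = 0

variable (H : PolHS ι)

lemma exists_op (f : ℤ → ℂ) : ∃ M : Matrix ι ι ℂ, ∀ q, ∀ x ∈ H.V q, M *ᵥ x = f q • x := by
  let T : ∀ q : ℤ, H.V q →ₗ[ℂ] (ι → ℂ) := fun q => f q • (H.V q).subtype
  let e := LinearEquiv.ofBijective (DirectSum.coeLinearMap H.V) H.internal
  refine ⟨LinearMap.toMatrix' ((DirectSum.toModule ℂ ℤ (ι → ℂ) T) ∘ₗ e.symm.toLinearMap),
    fun q x hx => ?_⟩
  have h1 : e.symm x = DirectSum.lof ℂ ℤ (fun q => H.V q) q ⟨x, hx⟩ := by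
    rw [LinearEquiv.symm_apply_eq]
    change x = DirectSum.coeLinearMap H.V _
    rw [DirectSum.coeLinearMap_lof]
  rw [LinearMap.toMatrix'_mulVec, LinearMap.comp_apply, LinearEquiv.coe_coe, h1,
    DirectSum.toModule_lof]
  rfl

lemma ext_hom {n : ℕ} {F G : MultilinearMap ℂ (fun _ : Fin n => ι → ℂ) ℂ}
    (h : ∀ (q : Fin n → ℤ) (v : Fin n → ι → ℂ), (∀ j, v j ∈ H.V (q j)) → F v = G v) : F = G := by
  let b : ∀ q : ℤ, Basis (Fin (finrank ℂ (H.V q))) ℂ (H.V q) := fun q => Module.finBasis ℂ _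
  let B := H.internal.collectedBasis b
  exact Basis.ext_multilinear (fun _ => B) fun r =>
    h (fun j => (r j).1) _ fun j => H.internal.collectedBasis_mem b (r j)

lemma ext_ev {n : ℕ} {a b : (Fin n → ι) → ℂ}
    (h : ∀ (q : Fin n → ℤ) (v : Fin n → ι → ℂ), (∀ j, v j ∈ H.V (q j)) → ev a v = ev b v) :
    a = b := by
  have h1 : evM a = evM b := ext_hom H fun q v hv => by rw [evM_apply, evM_apply, h q v hv]
  refine ev_inj fun v => ?_
  rw [← evM_apply, ← evM_apply, h1]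

lemma ext_mulVec {A B : Matrix ι ι ℂ} (h : ∀ q, ∀ x ∈ H.V q, A *ᵥ x = B *ᵥ x) : A = B := by
  let b : ∀ q : ℤ, Basis (Fin (finrank ℂ (H.V q))) ℂ (H.V q) := fun q => Module.finBasis ℂ _
  let B' := H.internal.collectedBasis b
  have h1 : Matrix.toLin' A = Matrix.toLin' B := B'.ext fun r =>
    h r.1 _ (H.internal.collectedBasis_mem b r)
  exact Matrix.toLin'.injective h1

/-- the action of the grading operator -/
lemma ev_dv_hom {N : Matrix ι ι ℂ}
    (hN : ∀ q, ∀ x ∈ H.V q, N *ᵥ x = ((2 * q - (H.w : ℤ) : ℤ) : ℂ) • x) {n : ℕ}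
    (a : (Fin n → ι) → ℂ) (q : Fin n → ℤ) (v : Fin n → ι → ℂ) (hv : ∀ j, v j ∈ H.V (q j)) :
    ev (dv N a) v = ((2 * ∑ j, q j - n * H.w : ℤ) : ℂ) * ev a v := by
  rw [← sum_update_eq]
  have h1 : ∀ j, ev a (Function.update v j (N *ᵥ v j)) =
      ((2 * q j - (H.w : ℤ) : ℤ) : ℂ) * ev a v := by
    intro j
    rw [hN _ _ (hv j), ev_update_smul, Function.update_eq_self]
  rw [Finset.sum_congr rfl fun j _ => h1 j, ← Finset.sum_mul, ← Int.cast_sum]
  congr 2
  rw [Finset.sum_sub_distrib, ← Finset.mul_sum, Finset.sum_const, Finset.card_univ,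
    Fintype.card_fin, nsmul_eq_mul]

lemma isHodge_iff {N : Matrix ι ι ℂ}
    (hN : ∀ q, ∀ x ∈ H.V q, N *ᵥ x = ((2 * q - (H.w : ℤ) : ℤ) : ℂ) • x) {n m : ℕ}
    (hm : 2 * m = n * H.w) (a : (Fin n → ι) → ℚ) : IsHodge H m a ↔ Kills N (cst ℂ a) := by
  have hm' : ((n : ℤ) * (H.w : ℤ)) = 2 * m := by exact_mod_cast hm.symm
  rw [kills_iff]
  constructor
  · intro h
    refine ext_ev H fun q v hv => ?_
    rw [ev_dv_hom H hN _ q v hv, ev_zero_left, hm']
    by_cases hq : ∑ j, q j = m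
    · rw [hq, sub_self, Int.cast_zero, zero_mul]
    · rw [h q v hv hq, mul_zero]
  · intro h q v hv hq
    have h1 := ev_dv_hom H hN (cst ℂ a) q v hv
    rw [h, ev_zero_left, hm'] at h1
    rcases mul_eq_zero.1 h1.symm with h2 | h2
    · exfalso
      have h3 : 2 * ∑ j, q j - 2 * (m : ℤ) = 0 := by exact_mod_cast h2
      exact hq (by linarith)
    · exact h2

/-- the operators which kill the Hodge forms -/
def KH : Submodule ℚ (Matrix ι ι ℚ) where
  carrier := {D | ∀ (n m : ℕ) (a : (Fin n → ι) → ℚ), 2 * m = n * H.w → IsHodge H m a → Kills D a}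
  add_mem' := fun h h' n m a hm ha => (h n m a hm ha).add (h' n m a hm ha)
  zero_mem' := fun _ _ _ _ _ => Kills.zero
  smul_mem' := fun c _ h n m a hm ha => (h n m a hm ha).smul c

variable {H}

lemma kills_of_mem_spM {F : Type} [Field F] [CharZero F] {S : Submodule ℚ (Matrix ι ι ℚ)}
    {M : Matrix ι ι F} (hM : M ∈ spM F S) {n : ℕ} {a : (Fin n → ι) → ℚ}
    (ha : ∀ D ∈ S, Kills D a) : Kills M (cst F a) := by
  rw [spM] at hM
  induction hM using Submodule.span_induction with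
  | mem x hx =>
    obtain ⟨s, hs, rfl⟩ := hx
    exact kills_cst_iff.2 (ha s hs)
  | zero => exact Kills.zero
  | add x y _ _ hx hy => exact hx.add hy
  | smul c x _ hx => exact hx.smul c

lemma mem_KH_of_kills {M : Matrix ι ι ℂ} (h : ∀ (n m : ℕ) (a : (Fin n → ι) → ℚ),
    2 * m = n * H.w → IsHodge H m a → Kills M (cst ℂ a)) : M ∈ spM ℂ (KH H) :=
  mem_of_fM fun φ n m a hm ha => kills_fM (h n m a hm ha) φ

/-- **Forms killed by the operators which kill all Hodge forms are Hodge forms.** -/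
theorem hodge_of_killed {n m : ℕ} (hm : 2 * m = n * H.w) {a : (Fin n → ι) → ℚ}
    (h : ∀ D ∈ KH H, Kills D a) : IsHodge H m a := by
  obtain ⟨N, hN⟩ := exists_op H fun q => ((2 * q - (H.w : ℤ) : ℤ) : ℂ)
  refine (isHodge_iff H hN hm a).2 (kills_of_mem_spM (S := KH H) ?_ h)
  exact mem_KH_of_kills fun n m a hm ha => (isHodge_iff H hN hm a).1 ha

lemma cst_bil (F : Type) [Field F] [CharZero F] (β c : Matrix ι ι ℚ) :
    cst F (bil β c) = bil (cM F β) (cM F c) := by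
  funext i
  rw [cst, bil, bil, Matrix.mul_apply, Matrix.mul_apply, Rat.cast_sum]
  refine Finset.sum_congr rfl fun k _ => ?_
  rw [Rat.cast_mul]
  rfl

variable (H)

lemma beta_hodge : IsHodge H H.w (bil H.β 1) := by
  intro q v hv hq
  rw [cst_bil, cM_one, ev_bil, Matrix.one_mulVec]
  refine H.orth (q 0) (q 1) ?_ _ (hv _) _ (hv _)
  rw [Fin.sum_univ_two] at hq
  exact hq

variable {H}

lemma skew_of_mem {D : Matrix ι ι ℚ} (hD : D ∈ KH H) : Skew H.β D :=
  kills_bil_one.1 (hD 2 H.w _ rfl (beta_hodge H))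

/-! ### Positivity -/

lemma herm_of_real {M : Matrix ι ι ℂ} (h : ∀ x : ι → ℂ, (star x ⬝ᵥ (M *ᵥ x)).im = 0) :
    M.IsHermitian := by
  rw [← isSymmetric_toEuclideanLin_iff, LinearMap.isSymmetric_iff_inner_map_self_real]
  intro v
  have h1 := h v.ofLp
  have h2 : inner ℂ (M.toEuclideanLin v) v = star (star v.ofLp ⬝ᵥ (M *ᵥ v.ofLp)) := by
    rw [EuclideanSpace.inner_eq_star_dotProduct]
    change v.ofLp ⬝ᵥ star (M *ᵥ v.ofLp) = _
    rw [dotProduct, dotProduct, star_sum]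
    refine Finset.sum_congr rfl fun i _ => ?_
    rw [Pi.star_apply, Pi.star_apply, star_mul', star_star, mul_comm, mul_comm]
  rw [h2]
  apply Complex.ext
  · simp
  · simp [h1]

lemma eq_zero_of_trace {M X Z : Matrix ι ι ℂ} (hM : M.PosDef) (hZ : M * Z = Xᴴ * M)
    (h : (X * Z).trace = 0) : X = 0 := by
  obtain ⟨y, hy, rfl⟩ := CStarAlgebra.isStrictlyPositive_iff_eq_star_mul_self.mp
    hM.isStrictlyPositive
  obtain ⟨u, rfl⟩ := hy
  obtain ⟨y, hy⟩ : ∃ y, y = (u : Matrix ι ι ℂ) := ⟨_, rfl⟩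
  obtain ⟨y', hy'⟩ : ∃ y', y' = ((u⁻¹ : (Matrix ι ι ℂ)ˣ) : Matrix ι ι ℂ) := ⟨_, rfl⟩
  have h1 : y * y' = 1 := by rw [hy, hy', Units.mul_inv]
  have h2 : y' * y = 1 := by rw [hy, hy', Units.inv_mul]
  rw [← hy, Matrix.star_eq_conjTranspose] at hZ
  have h1' : y'ᴴ * yᴴ = 1 := by rw [← Matrix.conjTranspose_mul, h1, Matrix.conjTranspose_one]
  have h3 : y * Z * y' = (y * X * y')ᴴ := by
    rw [Matrix.conjTranspose_mul, Matrix.conjTranspose_mul]
    calc y * Z * y' = (y'ᴴ * yᴴ) * y * Z * y' := by rw [h1', one_mul]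
      _ = y'ᴴ * (yᴴ * y * Z) * y' := by simp only [Matrix.mul_assoc]
      _ = y'ᴴ * (Xᴴ * (yᴴ * y)) * y' := by rw [hZ]
      _ = y'ᴴ * (Xᴴ * yᴴ) * (y * y') := by simp only [Matrix.mul_assoc]
      _ = _ := by rw [h1, mul_one]
  have h4 : ((y * X * y') * (y * X * y')ᴴ).trace = 0 := by
    rw [← h3]
    have e1 : (y * X * y') * (y * Z * y') = y * (X * Z * y') := by
      calc (y * X * y') * (y * Z * y') = y * (X * (y' * y) * Z * y') := by
            simp only [Matrix.mul_assoc]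
        _ = _ := by rw [h2, mul_one]
    rw [e1, Matrix.trace_mul_comm, Matrix.mul_assoc, h2, mul_one, h]
  have h5 := Matrix.trace_mul_conjTranspose_self_eq_zero_iff.1 h4
  calc X = (y' * y) * X * (y' * y) := by rw [h2, one_mul, mul_one]
    _ = y' * (y * X * y') * y := by simp only [Matrix.mul_assoc]
    _ = 0 := by rw [h5, Matrix.mul_zero, Matrix.zero_mul]

/-- components of a vector -/
lemma exists_parts (x : ι → ℂ) : ∃ (s : Finset ℤ) (f : ℤ → ι → ℂ), (∀ q, f q ∈ H.V q) ∧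
    x = ∑ q ∈ s, f q := by
  classical
  obtain ⟨d, hd⟩ := H.internal.2 x
  refine ⟨d.support, fun q => (d q : ι → ℂ), fun q => (d q).2, ?_⟩
  have h1 := DirectSum.coeAddMonoidHom_eq_dfinsuppSum H.V d
  rw [← hd]
  exact h1

lemma star_cM_mulVec (β : Matrix ι ι ℚ) (x : ι → ℂ) : star (cM ℂ β *ᵥ x) = cM ℂ β *ᵥ star x := by
  funext i
  rw [Pi.star_apply, Matrix.mulVec, Matrix.mulVec, dotProduct, dotProduct, star_sum]
  refine Finset.sum_congr rfl fun j _ => ?_
  rw [star_mul', Pi.star_apply, cM_apply]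
  congr 1
  simp

/-- the positive definite matrix -/
lemma posDef_of {C : Matrix ι ι ℂ}
    (hC : ∀ q, ∀ x ∈ H.V q, C *ᵥ x = (Complex.I ^ (2 * q - (H.w : ℤ))) • x) :
    ((cM ℂ H.β)ᵀ * C).PosDef := by
  classical
  have key : ∀ x : ι → ℂ, x ≠ 0 → ∃ t : ℝ, 0 < t ∧ star x ⬝ᵥ (((cM ℂ H.β)ᵀ * C) *ᵥ x) = t := by
    intro x hx
    obtain ⟨s, f, hf, hxs⟩ := exists_parts (H := H) x
    have h1 : star x ⬝ᵥ (((cM ℂ H.β)ᵀ * C) *ᵥ x) = (C *ᵥ x) ⬝ᵥ (cM ℂ H.β *ᵥ star x) := by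
      rw [← Matrix.mulVec_mulVec, ← dot_left, dotProduct_comm]
    have hstar : star x = ∑ q ∈ s, star (f q) := by rw [hxs, star_sum]
    have h2 : (C *ᵥ x) ⬝ᵥ (cM ℂ H.β *ᵥ star x) = ∑ q ∈ s,
        Complex.I ^ (2 * q - (H.w : ℤ)) * (f q ⬝ᵥ (cM ℂ H.β *ᵥ star (f q))) := by
      rw [hstar, Matrix.mulVec_sum, dotProduct_sum]
      conv_lhs => rw [hxs, Matrix.mulVec_sum]
      refine Finset.sum_congr rfl fun r hr => ?_
      rw [sum_dotProduct, Finset.sum_eq_single r]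
      · rw [hC _ _ (hf r), smul_dotProduct, smul_eq_mul]
      · intro q _ hqr
        rw [hC _ _ (hf q), smul_dotProduct,
          H.orth q (H.w - r) (fun h => hqr (by linarith)) _ (hf q) _ (H.conj r _ (hf r)), smul_zero]
      · intro h; exact absurd hr h
    have h3 : ∀ q, ∃ t : ℝ, 0 ≤ t ∧ (f q ≠ 0 → 0 < t) ∧
        Complex.I ^ (2 * q - (H.w : ℤ)) * (f q ⬝ᵥ (cM ℂ H.β *ᵥ star (f q))) = t := by
      intro q
      by_cases h0 : f q = 0
      · refine ⟨0, le_rfl, fun h => absurd h0 h, ?_⟩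
        rw [h0, zero_dotProduct, mul_zero, Complex.ofReal_zero]
      · obtain ⟨t, ht, h⟩ := H.pos q _ (hf q) h0
        exact ⟨t, ht.le, fun _ => ht, h⟩
    choose t ht ht' hte using h3
    refine ⟨∑ q ∈ s, t q, ?_, ?_⟩
    · obtain ⟨q, hq, hq0⟩ : ∃ q ∈ s, f q ≠ 0 := by
        by_contra hcon
        push Not at hcon
        exact hx (by rw [hxs]; exact Finset.sum_eq_zero hcon)
      exact lt_of_lt_of_le (ht' q hq0) (Finset.single_le_sum (f := t) (fun q _ => ht q) hq)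
    · rw [h1, h2, Complex.ofReal_sum]
      exact Finset.sum_congr rfl fun q _ => hte q
  refine Matrix.PosDef.of_dotProduct_mulVec_pos (herm_of_real fun x => ?_) fun x hx => ?_
  · by_cases hx : x = 0
    · rw [hx, Matrix.mulVec_zero, dotProduct_zero, Complex.zero_im]
    · obtain ⟨t, -, h⟩ := key x hx
      rw [h, Complex.ofReal_im]
  · obtain ⟨t, ht, h⟩ := key x hx
    rw [h]
    exact_mod_cast ht

lemma beta_unit (H : PolHS ι) : IsUnit H.β.det := by
  obtain ⟨C, hC⟩ := exists_op H fun q => Complex.I ^ (2 * q - (H.w : ℤ))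
  have h1 := (posDef_of (H := H) hC).isUnit
  rw [Matrix.isUnit_iff_isUnit_det, Matrix.det_mul, Matrix.det_transpose] at h1
  have h2 := isUnit_of_mul_isUnit_left h1
  have h3 : (cM ℂ H.β).det = ((H.β.det : ℚ) : ℂ) :=
    ((Rat.castHom ℂ).map_det H.β).symm
  rw [h3, isUnit_iff_ne_zero] at h2
  rw [isUnit_iff_ne_zero]
  intro h0
  exact h2 (by rw [h0, Rat.cast_zero])

lemma ev_C {C : Matrix ι ι ℂ}
    (hC : ∀ q, ∀ x ∈ H.V q, C *ᵥ x = (Complex.I ^ (2 * q - (H.w : ℤ))) • x) {n m : ℕ}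
    (hm : 2 * m = n * H.w) {a : (Fin n → ι) → ℚ} (ha : IsHodge H m a) :
    ga C (cst ℂ a) = cst ℂ a := by
  have hm' : ((n : ℤ) * (H.w : ℤ)) = 2 * m := by exact_mod_cast hm.symm
  refine ext_ev H fun q v hv => ?_
  rw [← ev_ga]
  have h1 : (fun j => C *ᵥ v j) = fun j => (Complex.I ^ (2 * q j - (H.w : ℤ))) • v j :=
    funext fun j => hC _ _ (hv j)
  rw [h1, ← evM_apply, MultilinearMap.map_smul_univ, evM_apply, smul_eq_mul]
  by_cases hq : ∑ j, q j = m
  · have h2 : ∏ j, Complex.I ^ (2 * q j - (H.w : ℤ)) = 1 := by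
      have h3 : ∀ s : Finset (Fin n), ∏ j ∈ s, Complex.I ^ (2 * q j - (H.w : ℤ)) =
          Complex.I ^ (∑ j ∈ s, (2 * q j - (H.w : ℤ))) := by
        intro s
        induction s using Finset.induction_on with
        | empty => rw [Finset.prod_empty, Finset.sum_empty, zpow_zero]
        | insert j s hj ih =>
          rw [Finset.prod_insert hj, Finset.sum_insert hj, ih, zpow_add₀ Complex.I_ne_zero]
      rw [h3, Finset.sum_sub_distrib, ← Finset.mul_sum, hq, Finset.sum_const, Finset.card_univ,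
        Fintype.card_fin, nsmul_eq_mul, hm', sub_self, zpow_zero]
    rw [h2, one_mul]
  · rw [ha q v hv hq, mul_zero]

/-- conjugates by elements which preserve the form up to a scalar -/
lemma Kills.conj {K : Type} [Field K] {κ : Type} [Fintype κ] [DecidableEq κ] {a : (κ → ι) → K}
    {g g' X : Matrix ι ι K} {c : K} (hc : c ≠ 0) (hg : ∀ v, ev a (fun j => g *ᵥ v j) = c * ev a v)
    (hgg : g * g' = 1) (h : Kills X a) : Kills (g' * X * g) a := by
  intro v
  have h1 := h fun j => g *ᵥ v j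
  have h2 : ∀ j, ev a (Function.update (fun j => g *ᵥ v j) j (X *ᵥ (g *ᵥ v j))) =
      c * ev a (Function.update v j ((g' * X * g) *ᵥ v j)) := by
    intro j
    rw [← hg]
    congr 1
    funext i
    by_cases hi : i = j
    · subst hi
      rw [Function.update_self, Function.update_self, Matrix.mulVec_mulVec, Matrix.mulVec_mulVec,
        ← Matrix.mul_assoc, ← Matrix.mul_assoc, hgg, Matrix.one_mul]
    · rw [Function.update_of_ne hi, Function.update_of_ne hi]
  rw [Finset.sum_congr rfl fun j _ => h2 j, ← Finset.mul_sum] at h1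
  exact (mul_eq_zero.1 h1).resolve_left hc

/-- **The trace form is nondegenerate on the Lie algebra of the Hodge forms.** -/
theorem nondeg_KH {X : Matrix ι ι ℚ} (hX : X ∈ KH H) (h : ∀ Y ∈ KH H, (X * Y).trace = 0) :
    X = 0 := by
  obtain ⟨C, hC⟩ := exists_op H fun q => Complex.I ^ (2 * q - (H.w : ℤ))
  obtain ⟨C', hC'⟩ := exists_op H fun q => (Complex.I ^ (2 * q - (H.w : ℤ)))⁻¹
  have hCC : C * C' = 1 := by
    refine ext_mulVec H fun q x hx => ?_
    rw [← Matrix.mulVec_mulVec, hC' q x hx, Matrix.mulVec_smul, hC q x hx, smul_smul,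
      inv_mul_cancel₀ (zpow_ne_zero _ Complex.I_ne_zero), one_smul, Matrix.one_mulVec]
  have hM := posDef_of (H := H) hC
  obtain ⟨Z, hZd⟩ : ∃ Z, Z = C' * cM ℂ X * C := ⟨_, rfl⟩
  have hZ : Z ∈ spM ℂ (KH H) := by
    refine mem_KH_of_kills fun n m a hm ha => ?_
    rw [hZd]
    refine Kills.conj one_ne_zero (fun v => ?_) hCC (kills_cst_iff.2 (hX n m a hm ha))
    rw [ev_ga, ev_C hC hm ha, one_mul]
  have htr : (cM ℂ X * Z).trace = 0 := by
    clear hZd
    rw [spM] at hZ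
    induction hZ using Submodule.span_induction with
    | mem x hx =>
      obtain ⟨s, hs, rfl⟩ := hx
      rw [← cM_mul]
      have h1 : (cM ℂ (X * s)).trace = (((X * s).trace : ℚ) : ℂ) := by
        rw [Matrix.trace, Matrix.trace, Rat.cast_sum]
        rfl
      rw [h1, h s hs, Rat.cast_zero]
    | zero => rw [Matrix.mul_zero, Matrix.trace_zero]
    | add x y _ _ hx hy => rw [Matrix.mul_add, Matrix.trace_add, hx, hy, add_zero]
    | smul c x _ hx => rw [Matrix.mul_smul, Matrix.trace_smul, hx, smul_zero]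
  -- the adjoint
  have hsk : (cM ℂ X)ᵀ * cM ℂ H.β + cM ℂ H.β * cM ℂ X = 0 := by
    have h1 := congrArg (cM ℂ) (skew_of_mem hX : Xᵀ * H.β + H.β * X = 0)
    rw [cM_add, cM_mul, cM_mul] at h1
    have h2 : cM ℂ (0 : Matrix ι ι ℚ) = 0 := by
      ext i j
      rw [cM_apply, Matrix.zero_apply, Matrix.zero_apply, Rat.cast_zero]
    rw [h2] at h1
    exact h1
  have hXH : (cM ℂ X)ᴴ = (cM ℂ X)ᵀ := by
    ext i j
    rw [Matrix.conjTranspose_apply, Matrix.transpose_apply, cM_apply]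
    simp
  have hadj : ((cM ℂ H.β)ᵀ * C) * (-Z) = (cM ℂ X)ᴴ * ((cM ℂ H.β)ᵀ * C) := by
    have h1 : (cM ℂ X)ᵀ * (cM ℂ H.β)ᵀ = -((cM ℂ H.β)ᵀ * cM ℂ X) := by
      have h2 := congrArg Matrix.transpose hsk
      rw [Matrix.transpose_add, Matrix.transpose_mul, Matrix.transpose_mul,
        Matrix.transpose_transpose, Matrix.transpose_zero] at h2
      rw [eq_neg_iff_add_eq_zero, add_comm]
      exact h2
    rw [hXH, ← Matrix.mul_assoc, h1, hZd, Matrix.mul_neg, Matrix.neg_mul]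
    congr 1
    calc (cM ℂ H.β)ᵀ * C * (C' * cM ℂ X * C) = (cM ℂ H.β)ᵀ * (C * C') * cM ℂ X * C := by
          simp only [Matrix.mul_assoc]
      _ = _ := by rw [hCC, mul_one]
  have h2 : cM ℂ X = 0 := by
    refine eq_zero_of_trace hM hadj ?_
    rw [Matrix.mul_neg, Matrix.trace_neg, htr, neg_zero]
  refine cM_inj (F := ℂ) (h2.trans ?_)
  ext i j
  rw [cM_apply, Matrix.zero_apply, Matrix.zero_apply, Rat.cast_zero]

end Run7.h877.MT
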