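import Mathlib
import Pool.Agent.Run7.h877.MT.Ar

/-!
# The logarithm of `ℓ`-adic matrices close to one
-/

set_option autoImplicit false
set_option linter.unusedSectionVars false

namespace Run7.h877.MT

open Matrix Filter Topology

variable {ι : Type} [Fintype ι] [DecidableEq ι] {p : ℕ} [hp : Fact p.Prime]

/-- all entries are bounded -/
def Bd (r : ℝ) (A : Matrix ι ι ℚ_[p]) : Prop := ∀ i j, ‖A i j‖ ≤ r

lemma Bd.mono {r s : ℝ} {A : Matrix ι ι ℚ_[p]} (h : Bd r A) (hrs : r ≤ s) : Bd s A :=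
  fun i j => (h i j).trans hrs

lemma Bd.mul {a b : ℝ} (ha : 0 ≤ a) (hb : 0 ≤ b) {A B : Matrix ι ι ℚ_[p]} (hA : Bd a A)
    (hB : Bd b B) : Bd (a * b) (A * B) := by
  intro i j
  rw [Matrix.mul_apply]
  refine IsUltrametricDist.norm_sum_le_of_forall_le_of_nonneg (mul_nonneg ha hb) fun k _ => ?_
  rw [norm_mul]
  exact mul_le_mul (hA i k) (hB k j) (norm_nonneg _) ha

lemma Bd.add {r : ℝ} {A B : Matrix ι ι ℚ_[p]} (hA : Bd r A) (hB : Bd r B) : Bd r (A + B) := by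
  intro i j
  exact (IsUltrametricDist.norm_add_le_max _ _).trans (max_le (hA i j) (hB i j))

lemma Bd.neg {r : ℝ} {A : Matrix ι ι ℚ_[p]} (hA : Bd r A) : Bd r (-A) := by
  intro i j
  rw [Matrix.neg_apply, norm_neg]
  exact hA i j

lemma Bd.sub {r : ℝ} {A B : Matrix ι ι ℚ_[p]} (hA : Bd r A) (hB : Bd r B) : Bd r (A - B) := by
  rw [sub_eq_add_neg]; exact hA.add hB.neg

lemma Bd.one : Bd 1 (1 : Matrix ι ι ℚ_[p]) := by
  intro i j
  rw [Matrix.one_apply]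
  split_ifs <;> simp

lemma Bd.zero {r : ℝ} (hr : 0 ≤ r) : Bd r (0 : Matrix ι ι ℚ_[p]) := by
  intro i j
  simpa using hr

lemma Bd.sum {r : ℝ} (hr : 0 ≤ r) {α : Type} (s : Finset α) (A : α → Matrix ι ι ℚ_[p])
    (h : ∀ a ∈ s, Bd r (A a)) : Bd r (∑ a ∈ s, A a) := by
  intro i j
  rw [Matrix.sum_apply]
  exact IsUltrametricDist.norm_sum_le_of_forall_le_of_nonneg hr fun a ha => h a ha i j

lemma Bd.natCast_smul {r : ℝ} {A : Matrix ι ι ℚ_[p]} (hA : Bd r A) (n : ℕ) :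
    Bd r ((n : ℚ_[p]) • A) := by
  intro i j
  rw [Matrix.smul_apply, smul_eq_mul, norm_mul]
  have h1 : ‖(n : ℚ_[p])‖ ≤ 1 := by
    have := Padic.norm_int_le_one (p := p) (n : ℤ)
    simpa using this
  calc ‖(n : ℚ_[p])‖ * ‖A i j‖ ≤ 1 * ‖A i j‖ := mul_le_mul_of_nonneg_right h1 (norm_nonneg _)
    _ ≤ r := by rw [one_mul]; exact hA i j

lemma bd_of_near {r : ℝ} (hr1 : r ≤ 1) {T : Matrix ι ι ℚ_[p]} (hT : Bd r (T - 1)) : Bd 1 T := by
  have h1 := (hT.mono hr1).add Bd.one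
  rwa [sub_add_cancel] at h1

lemma near_pow {r : ℝ} (hr : 0 ≤ r) (hr1 : r ≤ 1) {T : Matrix ι ι ℚ_[p]} (hT : Bd r (T - 1))
    (n : ℕ) : Bd r (T ^ n - 1) := by
  induction n with
  | zero => rw [pow_zero, sub_self]; exact Bd.zero hr
  | succ n ih =>
    have h1 : T ^ (n + 1) - 1 = T ^ n * (T - 1) + (T ^ n - 1) := by rw [pow_succ]; noncomm_ring
    rw [h1]
    have h2 := (bd_of_near hr1 ih).mul zero_le_one hr hT
    rw [one_mul] at h2
    exact h2.add ih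

lemma p_pos : (0 : ℝ) < p := by exact_mod_cast hp.out.pos

lemma p_inv_lt : ((p : ℝ))⁻¹ < 1 := inv_lt_one_of_one_lt₀ (by exact_mod_cast hp.out.one_lt)

lemma near_p {r : ℝ} (hr : 0 ≤ r) (hr1 : r ≤ (p : ℝ)⁻¹) {T : Matrix ι ι ℚ_[p]}
    (hT : Bd r (T - 1)) : Bd (r * (p : ℝ)⁻¹) (T ^ p - 1) := by
  have hr2 : r ≤ 1 := hr1.trans p_inv_lt.le
  have hp0 : (0 : ℝ) ≤ (p : ℝ)⁻¹ := by positivity
  have h1 : T ^ p - 1 = (T - 1) * ∑ i ∈ Finset.range p, T ^ i := by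
    rw [mul_geom_sum]
  have h2 : Bd (p : ℝ)⁻¹ (∑ i ∈ Finset.range p, T ^ i) := by
    have h3 : ∑ i ∈ Finset.range p, T ^ i = (∑ i ∈ Finset.range p, (T ^ i - 1)) +
        (p : ℚ_[p]) • (1 : Matrix ι ι ℚ_[p]) := by
      rw [Finset.sum_sub_distrib, Finset.sum_const, Finset.card_range, Nat.cast_smul_eq_nsmul]
      abel
    rw [h3]
    refine Bd.add ?_ ?_
    · exact (Bd.sum hr _ _ fun i _ => near_pow hr hr2 hT i).mono hr1
    · intro i j
      rw [Matrix.smul_apply, smul_eq_mul, norm_mul, Padic.norm_p]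
      have h4 := Bd.one (p := p) i j
      calc (p : ℝ)⁻¹ * ‖(1 : Matrix ι ι ℚ_[p]) i j‖ ≤ (p : ℝ)⁻¹ * 1 :=
            mul_le_mul_of_nonneg_left h4 hp0
        _ = _ := mul_one _
  rw [h1]
  exact hT.mul hr hp0 h2

lemma comm_step {r s : ℝ} (hr : 0 ≤ r) (hr1 : r < (p : ℝ)⁻¹) (hs : 0 ≤ s)
    {T P : Matrix ι ι ℚ_[p]} (hT : Bd r (T - 1))
    (h : Bd ((p : ℝ)⁻¹ * s) (T ^ p * P - P * T ^ p)) : Bd s (T * P - P * T) := by
  classical
  have hr2 : r ≤ 1 := hr1.le.trans p_inv_lt.le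
  rcases isEmpty_or_nonempty ι with hι | hι
  · intro i; exact (hι.false i).elim
  obtain ⟨x, -, hx⟩ := Finset.exists_max_image (Finset.univ : Finset (ι × ι))
    (fun x => ‖(T * P - P * T) x.1 x.2‖) Finset.univ_nonempty
  obtain ⟨K, hK⟩ : ∃ K, K = T * P - P * T := ⟨_, rfl⟩
  rw [← hK] at hx ⊢
  have hKb : Bd ‖K x.1 x.2‖ K := fun i j => hx (i, j) (Finset.mem_univ _)
  obtain ⟨c, hc⟩ : ∃ c, c = ‖K x.1 x.2‖ := ⟨_, rfl⟩
  rw [← hc] at hKb
  have hc0 : 0 ≤ c := by rw [hc]; exact norm_nonneg _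
  have key : ∀ n : ℕ, Bd (r * c) (T ^ n * P - P * T ^ n - (n : ℚ_[p]) • K) := by
    intro n
    induction n with
    | zero =>
      rw [pow_zero, Matrix.one_mul, Matrix.mul_one, sub_self, Nat.cast_zero, zero_smul, sub_zero]
      exact Bd.zero (mul_nonneg hr hc0)
    | succ n ih =>
      have h1 : T ^ (n + 1) * P - P * T ^ (n + 1) - ((n + 1 : ℕ) : ℚ_[p]) • K =
          T * (T ^ n * P - P * T ^ n - (n : ℚ_[p]) • K) + (T - 1) * ((n : ℚ_[p]) • K) +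
            K * (T ^ n - 1) := by
        rw [pow_succ', Nat.cast_succ, add_smul, one_smul]
        generalize (n : ℚ_[p]) • K = S
        rw [hK]
        have e1 : T ^ n * T = T * T ^ n := (pow_succ T n).symm.trans (pow_succ' T n)
        have e2 : P * (T * T ^ n) = P * T * T ^ n := by rw [Matrix.mul_assoc]
        rw [e2]
        noncomm_ring
      rw [h1]
      refine (Bd.add ?_ ?_).add ?_
      · have := (bd_of_near hr2 hT).mul zero_le_one (mul_nonneg hr hc0) ih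
        rwa [one_mul] at this
      · exact hT.mul hr hc0 (hKb.natCast_smul n)
      · have := hKb.mul hc0 hr (near_pow hr hr2 hT n)
        rwa [mul_comm c r] at this
  by_contra hcon
  have hlt : s < c := by
    by_contra hle
    exact hcon (hKb.mono (not_lt.1 hle))
  have h1 := key p x.1 x.2
  have h2 := h x.1 x.2
  have h3 : ‖((p : ℚ_[p]) • K) x.1 x.2‖ ≤ max ((p : ℝ)⁻¹ * s) (r * c) := by
    have e1 : ((p : ℚ_[p]) • K) x.1 x.2 = (T ^ p * P - P * T ^ p) x.1 x.2 -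
        (T ^ p * P - P * T ^ p - (p : ℚ_[p]) • K) x.1 x.2 := by
      simp only [Matrix.sub_apply]; ring
    rw [e1, sub_eq_add_neg]
    refine (IsUltrametricDist.norm_add_le_max _ _).trans (max_le_max h2 ?_)
    rw [norm_neg]
    exact h1
  rw [Matrix.smul_apply, smul_eq_mul, norm_mul, Padic.norm_p, ← hc] at h3
  have hpi : (0 : ℝ) < (p : ℝ)⁻¹ := inv_pos.2 p_pos
  rcases le_max_iff.1 h3 with h4 | h4
  · exact absurd (le_of_mul_le_mul_left h4 hpi) (not_le.2 hlt)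
  · have h5 : r * c < (p : ℝ)⁻¹ * c := mul_lt_mul_of_pos_right hr1 (hs.trans_lt hlt)
    exact absurd h4 (not_le.2 h5)

/-- the radius -/
lemma rad_lt (k : ℕ) : ((p : ℝ)⁻¹) ^ (2 + k) < (p : ℝ)⁻¹ := by
  have h1 : ((p : ℝ)⁻¹) ^ (2 + k) < ((p : ℝ)⁻¹) ^ 1 :=
    pow_lt_pow_right_of_lt_one₀ (inv_pos.2 p_pos) p_inv_lt (by omega)
  rwa [pow_one] at h1

lemma near_iter {T : Matrix ι ι ℚ_[p]} (hT : Bd (((p : ℝ)⁻¹) ^ 2) (T - 1)) (k : ℕ) :
    Bd (((p : ℝ)⁻¹) ^ (2 + k)) (T ^ p ^ k - 1) := by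
  induction k with
  | zero => rw [pow_zero, pow_one]; exact hT
  | succ k ih =>
    have h1 := near_p (by positivity) (rad_lt k).le ih
    rw [← pow_mul, ← pow_succ] at h1
    rwa [← pow_succ] at h1

lemma comm_iter {s : ℝ} (hs : 0 ≤ s) {T P : Matrix ι ι ℚ_[p]}
    (hT : Bd (((p : ℝ)⁻¹) ^ 2) (T - 1)) (k : ℕ)
    (h : Bd (((p : ℝ)⁻¹) ^ k * s) (T ^ p ^ k * P - P * T ^ p ^ k)) : Bd s (T * P - P * T) := by
  induction k with
  | zero => rw [pow_zero, pow_zero, pow_one, one_mul] at h; exact h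
  | succ k ih =>
    refine ih (comm_step (r := ((p : ℝ)⁻¹) ^ (2 + k)) (by positivity) (rad_lt k)
      (mul_nonneg (by positivity) hs) (near_iter hT k) ?_)
    rw [← pow_mul, ← pow_succ, ← mul_assoc, ← pow_succ']
    exact h

/-- the difference quotients -/
noncomputable def Yk (T : Matrix ι ι ℚ_[p]) (k : ℕ) : Matrix ι ι ℚ_[p] :=
  ((p : ℚ_[p]) ^ k)⁻¹ • (T ^ p ^ k - 1)

lemma pk_ne (k : ℕ) : ((p : ℚ_[p]) ^ k) ≠ 0 :=
  pow_ne_zero _ (by exact_mod_cast hp.out.ne_zero)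

lemma pow_eq_Yk (T : Matrix ι ι ℚ_[p]) (k : ℕ) : T ^ p ^ k = 1 + ((p : ℚ_[p]) ^ k) • Yk T k := by
  rw [Yk, smul_smul, mul_inv_cancel₀ (pk_ne k), one_smul]
  abel

lemma norm_pk (k : ℕ) : ‖((p : ℚ_[p]) ^ k)‖ = ((p : ℝ)⁻¹) ^ k := by
  rw [norm_pow, Padic.norm_p]

lemma Yk_bd {T : Matrix ι ι ℚ_[p]} (hT : Bd (((p : ℝ)⁻¹) ^ 2) (T - 1)) (k : ℕ) :
    Bd 1 (Yk T k) := by
  intro i j
  rw [Yk, Matrix.smul_apply, smul_eq_mul, norm_mul, norm_inv, norm_pk]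
  have h1 := near_iter hT k i j
  have h0 : (0 : ℝ) < ((p : ℝ)⁻¹) ^ k := pow_pos (inv_pos.2 p_pos) _
  rw [inv_mul_le_iff₀ h0, mul_one]
  refine h1.trans ?_
  rw [add_comm, pow_add]
  have h2 : ((p : ℝ)⁻¹) ^ 2 ≤ 1 := pow_le_one₀ (inv_pos.2 p_pos).le p_inv_lt.le
  calc ((p : ℝ)⁻¹) ^ k * ((p : ℝ)⁻¹) ^ 2 ≤ ((p : ℝ)⁻¹) ^ k * 1 :=
        mul_le_mul_of_nonneg_left h2 h0.le
    _ = _ := mul_one _

/-- Matrices which commute with a limit of the difference quotients commute with `T`. -/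
lemma comm_of_limit {T c Y : Matrix ι ι ℚ_[p]} (hT : Bd (((p : ℝ)⁻¹) ^ 2) (T - 1)) {φ : ℕ → ℕ}
    (hY : Tendsto (fun n => Yk T (φ n)) atTop (𝓝 Y)) (hc : c * Y = Y * c) :
    c * T = T * c := by
  have h0 : ∀ s : ℝ, 0 < s → Bd s (T * c - c * T) := by
    intro s hs
    have h1 : Tendsto (fun n => Yk T (φ n) * c - c * Yk T (φ n)) atTop (𝓝 (Y * c - c * Y)) :=
      (hY.mul tendsto_const_nhds).sub (tendsto_const_nhds.mul hY)
    rw [hc, sub_self] at h1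
    have h2 : ∀ᶠ n in atTop, Bd s (Yk T (φ n) * c - c * Yk T (φ n)) := by
      have h3 : ∀ i j, ∀ᶠ n in atTop, ‖(Yk T (φ n) * c - c * Yk T (φ n)) i j‖ ≤ s := by
        intro i j
        have h4 : Tendsto (fun n => (Yk T (φ n) * c - c * Yk T (φ n)) i j) atTop (𝓝 0) :=
          (tendsto_pi_nhds.1 ((tendsto_pi_nhds.1 h1) i)) j
        have h5 := h4.norm
        rw [norm_zero] at h5
        exact (h5.eventually (gt_mem_nhds hs)).mono fun n hn => hn.le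
      exact (eventually_all.2 fun i => eventually_all.2 fun j => h3 i j).mono fun n hn i j => hn i j
    obtain ⟨n, hn⟩ := h2.exists
    refine comm_iter hs.le hT (φ n) ?_
    have h3 : T ^ p ^ φ n * c - c * T ^ p ^ φ n =
        ((p : ℚ_[p]) ^ φ n) • (Yk T (φ n) * c - c * Yk T (φ n)) := by
      rw [pow_eq_Yk, add_mul, mul_add, one_mul, mul_one, Matrix.smul_mul, Matrix.mul_smul,
        smul_sub]
      abel
    intro i j
    rw [h3, Matrix.smul_apply, smul_eq_mul, norm_mul, norm_pk]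
    exact mul_le_mul_of_nonneg_left (hn i j) (by positivity)
  have h1 : T * c - c * T = 0 := by
    ext i j
    by_contra hne
    have h2 := h0 (‖(T * c - c * T) i j‖ / 2) (half_pos (norm_pos_iff.2 hne)) i j
    have h3 := norm_pos_iff.2 hne
    linarith
  exact (sub_eq_zero.1 h1).symm

end Run7.h877.MT
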