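import Mathlib
import Pool.Agent.Run7.h877.MT.Pad

/-!
# Operators which commute with the Lie algebra commute with an open subgroup
-/

set_option autoImplicit false
set_option linter.unusedSectionVars false

namespace Run7.h877.MT

open Matrix Filter Topology

variable {ι : Type} [Fintype ι] [DecidableEq ι]

/-- The multilinear form in `n` variables with coefficients `a` is a Tate class of twist `m`: the
elements `g` of a subgroup of finite index of `Γ` multiply it by `μ(g) ^ m`. -/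
def IsTate {Γ K : Type} [Group Γ] [Field K] (ρ : Γ → Matrix ι ι K) (μ : Γ → K) (m : ℕ) {n : ℕ}
    (a : (Fin n → ι) → K) : Prop :=
  ∃ Δ : Subgroup Γ, Δ.FiniteIndex ∧ ∀ g ∈ Δ, ∀ v : Fin n → ι → K,
    ev a (fun j => ρ g *ᵥ v j) = μ g ^ m * ev a v

variable {p : ℕ} [hp : Fact p.Prime]

lemma lim_pow {A : ℕ → Matrix ι ι ℚ_[p]} {A0 : Matrix ι ι ℚ_[p]} (hA : Tendsto A atTop (𝓝 A0))
    {t : ℕ → ℚ_[p]} (ht : ∀ n, t n ≠ 0) (ht0 : Tendsto t atTop (𝓝 0)) (m : ℕ) :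
    Tendsto (fun n => (t n)⁻¹ • ((1 + t n • A n) ^ m - 1)) atTop (𝓝 ((m : ℚ_[p]) • A0)) := by
  induction m with
  | zero => simp
  | succ m ih =>
    have h1 : ∀ n, (t n)⁻¹ • ((1 + t n • A n) ^ (m + 1) - 1) =
        ((t n)⁻¹ • ((1 + t n • A n) ^ m - 1)) * (1 + t n • A n) + A n := by
      intro n
      have h2 : (1 + t n • A n) ^ (m + 1) - 1 =
          ((1 + t n • A n) ^ m - 1) * (1 + t n • A n) + t n • A n := by
        generalize t n • A n = S
        rw [pow_succ]; noncomm_ring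
      rw [h2, smul_add, smul_smul, inv_mul_cancel₀ (ht n), one_smul, Matrix.smul_mul]
    simp only [h1]
    have h3 : Tendsto (fun n => (1 : Matrix ι ι ℚ_[p]) + t n • A n) atTop (𝓝 (1 + (0 : ℚ_[p]) • A0)) :=
      tendsto_const_nhds.add (ht0.smul hA)
    have h4 := (ih.mul h3).add hA
    rw [zero_smul, add_zero, mul_one] at h4
    convert h4 using 2
    push_cast
    rw [add_smul, one_smul]

/-- the continuous multilinear map -/
noncomputable def evC {κ : Type} [Fintype κ] [DecidableEq κ] (a : (κ → ι) → ℚ_[p]) :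
    ContinuousMultilinearMap ℚ_[p] (fun _ : κ => ι → ℚ_[p]) ℚ_[p] :=
  { evM a with
    cont := by
      have h : (evM a).toFun = fun v : κ → ι → ℚ_[p] => ∑ i, a i * ∏ j, v j (i j) := by
        funext v
        exact evM_apply a v
      change Continuous (evM a).toFun
      rw [h]
      fun_prop }

lemma evC_apply {κ : Type} [Fintype κ] [DecidableEq κ] (a : (κ → ι) → ℚ_[p])
    (v : κ → ι → ℚ_[p]) : evC a v = ev a v := evM_apply a v

lemma deriv_lim {κ : Type} [Fintype κ] [DecidableEq κ] (a : (κ → ι) → ℚ_[p]) (v : κ → ι → ℚ_[p])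
    {G : ℕ → Matrix ι ι ℚ_[p]} {Z : Matrix ι ι ℚ_[p]} {t : ℕ → ℚ_[p]} (ht : ∀ n, t n ≠ 0)
    (ht0 : Tendsto t atTop (𝓝 0))
    (hZ : Tendsto (fun n => (t n)⁻¹ • (G n - 1)) atTop (𝓝 Z)) :
    Tendsto (fun n => (t n)⁻¹ * (ev a (fun j => G n *ᵥ v j) - ev a v)) atTop
      (𝓝 (∑ j, ev a (Function.update v j (Z *ᵥ v j)))) := by
  have hmv : ∀ w : ι → ℚ_[p], Tendsto (fun n => ((t n)⁻¹ • (G n - 1)) *ᵥ w) atTop
      (𝓝 (Z *ᵥ w)) := by
    intro w
    have hc : Continuous fun M : Matrix ι ι ℚ_[p] => M *ᵥ w := by fun_prop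
    exact (hc.tendsto Z).comp hZ
  have hcd : Tendsto (fun n => (t n)⁻¹ • fun j => G n *ᵥ v j - v j) atTop
      (𝓝 fun j => Z *ᵥ v j) := by
    rw [tendsto_pi_nhds]
    intro j
    have h1 := hmv (v j)
    refine h1.congr fun n => ?_
    rw [Pi.smul_apply, Matrix.smul_mulVec, Matrix.sub_mulVec, Matrix.one_mulVec]
  have hd : Tendsto (fun n => fun j => G n *ᵥ v j - v j) atTop (𝓝 (0 : κ → ι → ℚ_[p])) := by
    have h1 := ht0.smul hcd
    rw [zero_smul] at h1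
    refine h1.congr fun n => ?_
    rw [smul_smul, mul_inv_cancel₀ (ht n), one_smul]
  have h1 := ((evC a).hasStrictFDerivAt (x := v)).hasFDerivAt
  have h2 := (hasFDerivWithinAt_univ.2 h1).lim hd (Eventually.of_forall fun _ => Set.mem_univ _) hcd
  rw [ContinuousMultilinearMap.linearDeriv_apply] at h2
  simp only [evC_apply] at h2
  refine h2.congr fun n => ?_
  rw [smul_eq_mul]
  congr 3
  funext j
  exact add_sub_cancel (v j) _

/-- the scalar matrix -/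
noncomputable def sc (n : ℚ_[p]) : Matrix Unit Unit ℚ_[p] := n • 1

lemma sc_apply (n : ℚ_[p]) (i j : Unit) : sc n i j = n := by
  rw [sc, Matrix.smul_apply, Matrix.one_apply_eq, smul_eq_mul, mul_one]

lemma sc_pow (n : ℚ_[p]) (j : ℕ) : sc n ^ j = sc (n ^ j) := by
  rw [sc, sc, smul_pow, one_pow]

/-- The first order term of an invariance property. -/
lemma kills_of_limit {T Y : Matrix ι ι ℚ_[p]} {b : ℚ_[p]} {y : Matrix Unit Unit ℚ_[p]}
    {φ : ℕ → ℕ} (hφ : StrictMono φ) (hY : Tendsto (fun n => Yk T (φ n)) atTop (𝓝 Y))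
    (hy : Tendsto (fun s => Yk (sc b) (φ s)) atTop (𝓝 y)) {n k w m : ℕ} (hk : 2 * k = n * w)
    (hm : 0 < m) {a : (Fin n → ι) → ℚ_[p]}
    (ha : ∀ s v, ev a (fun j => (T ^ p ^ s) ^ m *ᵥ v j) = ((b ^ p ^ s) ^ m) ^ k * ev a v) :
    Kills (Y - ((w : ℚ_[p]) * y () () / 2) • 1) a := by
  intro v
  have ht : ∀ n, ((p : ℚ_[p]) ^ φ n) ≠ 0 := fun n => pk_ne _
  have ht0 : Tendsto (fun n => ((p : ℚ_[p]) ^ φ n)) atTop (𝓝 0) := by
    have h1 : Tendsto (fun n : ℕ => ((p : ℚ_[p]) ^ n)) atTop (𝓝 0) := by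
      refine tendsto_pow_atTop_nhds_zero_of_norm_lt_one ?_
      rw [Padic.norm_p]
      exact p_inv_lt
    exact h1.comp hφ.tendsto_atTop
  have h1 := lim_pow hY ht ht0 m
  have h2 := lim_pow hy ht ht0 (m * k)
  simp only [← pow_eq_Yk] at h1 h2
  have h3 := deriv_lim a v ht ht0 h1
  have h4 : Tendsto (fun n => ((p : ℚ_[p]) ^ φ n)⁻¹ *
      (ev a (fun j => (T ^ p ^ φ n) ^ m *ᵥ v j) - ev a v)) atTop
      (𝓝 ((((m * k : ℕ) : ℚ_[p]) * y () ()) * ev a v)) := by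
    have h5 : Tendsto (fun s => (((p : ℚ_[p]) ^ φ s)⁻¹ • ((sc b ^ p ^ φ s) ^ (m * k) - 1)) () ())
        atTop (𝓝 ((((m * k : ℕ) : ℚ_[p]) • y) () ())) :=
      (tendsto_pi_nhds.1 ((tendsto_pi_nhds.1 h2) ())) ()
    have h6 := h5.mul (tendsto_const_nhds (x := ev a v))
    refine h6.congr fun s => ?_
    rw [ha, Matrix.smul_apply, Matrix.sub_apply, Matrix.one_apply_eq, smul_eq_mul, sc_pow, sc_pow,
      sc_apply, pow_mul]
    ring
  have h5 := tendsto_nhds_unique h3 h4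
  have hm0 : (m : ℚ_[p]) ≠ 0 := by exact_mod_cast hm.ne'
  have h6 : ∑ j, ev a (Function.update v j (Y *ᵥ v j)) = (k : ℚ_[p]) * y () () * ev a v := by
    have h7 : ∑ j, ev a (Function.update v j (((m : ℚ_[p]) • Y) *ᵥ v j)) =
        (m : ℚ_[p]) * ∑ j, ev a (Function.update v j (Y *ᵥ v j)) := by
      rw [Finset.mul_sum]
      refine Finset.sum_congr rfl fun j _ => ?_
      rw [Matrix.smul_mulVec, ev_update_smul]
    rw [h7] at h5
    have h8 : (m : ℚ_[p]) * ∑ j, ev a (Function.update v j (Y *ᵥ v j)) =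
        (m : ℚ_[p]) * ((k : ℚ_[p]) * y () () * ev a v) := by
      rw [h5]; push_cast; ring
    exact mul_left_cancel₀ hm0 h8
  have h7 : ∀ j, ev a (Function.update v j ((Y - ((w : ℚ_[p]) * y () () / 2) • 1) *ᵥ v j)) =
      ev a (Function.update v j (Y *ᵥ v j)) - ((w : ℚ_[p]) * y () () / 2) * ev a v := by
    intro j
    rw [Matrix.sub_mulVec, Matrix.smul_mulVec, Matrix.one_mulVec, ev_update_sub, ev_update_smul,
      Function.update_eq_self]
  rw [Finset.sum_congr rfl fun j _ => h7 j, Finset.sum_sub_distrib, h6, Finset.sum_const,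
    Finset.card_univ, Fintype.card_fin, nsmul_eq_mul]
  have hk' : (2 : ℚ_[p]) * (k : ℚ_[p]) = (n : ℚ_[p]) * (w : ℚ_[p]) := by exact_mod_cast hk
  linear_combination (y () () / 2 * ev a v) * hk'

/-- the elements close to one -/
def nearGroup {Γ : Type} [Group Γ] (ρ : Γ →* Matrix ι ι ℚ_[p]) (ν : Γ →* ℚ_[p]) :
    Subgroup Γ where
  carrier := {g | (Bd (((p : ℝ)⁻¹) ^ 2) (ρ g - 1) ∧ Bd (((p : ℝ)⁻¹) ^ 2) (ρ g⁻¹ - 1)) ∧
    ‖ν g - 1‖ ≤ ((p : ℝ)⁻¹) ^ 2 ∧ ‖ν g⁻¹ - 1‖ ≤ ((p : ℝ)⁻¹) ^ 2}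
  one_mem' := by
    refine ⟨⟨?_, ?_⟩, ?_, ?_⟩
    · rw [map_one, sub_self]; exact Bd.zero (by positivity)
    · rw [inv_one, map_one, sub_self]; exact Bd.zero (by positivity)
    · rw [map_one, sub_self, norm_zero]; positivity
    · rw [inv_one, map_one, sub_self, norm_zero]; positivity
  mul_mem' := by
    have hr : (0 : ℝ) ≤ ((p : ℝ)⁻¹) ^ 2 := by positivity
    have hr1 : ((p : ℝ)⁻¹) ^ 2 ≤ 1 := pow_le_one₀ (inv_pos.2 p_pos).le p_inv_lt.le
    have h1 : ∀ A B : Matrix ι ι ℚ_[p], Bd (((p : ℝ)⁻¹) ^ 2) (A - 1) →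
        Bd (((p : ℝ)⁻¹) ^ 2) (B - 1) → Bd (((p : ℝ)⁻¹) ^ 2) (A * B - 1) := by
      intro A B hA hB
      have e : A * B - 1 = (A - 1) * B + (B - 1) := by noncomm_ring
      rw [e]
      have h2 := hA.mul hr zero_le_one (bd_of_near hr1 hB)
      rw [mul_one] at h2
      exact h2.add hB
    have h2 : ∀ x y : ℚ_[p], ‖x - 1‖ ≤ ((p : ℝ)⁻¹) ^ 2 → ‖y - 1‖ ≤ ((p : ℝ)⁻¹) ^ 2 →
        ‖x * y - 1‖ ≤ ((p : ℝ)⁻¹) ^ 2 := by
      intro x y hx hy
      have e : x * y - 1 = (x - 1) * y + (y - 1) := by ring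
      have hy1 : ‖y‖ ≤ 1 := by
        have e2 : y = (y - 1) + 1 := by ring
        rw [e2]
        refine (IsUltrametricDist.norm_add_le_max _ _).trans (max_le (hy.trans hr1) ?_)
        rw [norm_one]
      rw [e]
      refine (IsUltrametricDist.norm_add_le_max _ _).trans (max_le ?_ hy)
      rw [norm_mul]
      calc ‖x - 1‖ * ‖y‖ ≤ ((p : ℝ)⁻¹) ^ 2 * 1 := mul_le_mul hx hy1 (norm_nonneg _) hr
        _ = _ := mul_one _
    rintro g h ⟨⟨ha, hb⟩, hc, hd⟩ ⟨⟨ha', hb'⟩, hc', hd'⟩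
    refine ⟨⟨?_, ?_⟩, ?_, ?_⟩
    · rw [map_mul]; exact h1 _ _ ha ha'
    · rw [_root_.mul_inv_rev, map_mul]; exact h1 _ _ hb' hb
    · rw [map_mul]; exact h2 _ _ hc hc'
    · rw [_root_.mul_inv_rev, map_mul]; exact h2 _ _ hd' hd
  inv_mem' := by
    rintro g ⟨⟨ha, hb⟩, hc, hd⟩
    exact ⟨⟨hb, by rw [inv_inv]; exact ha⟩, hd, by rw [inv_inv]; exact hc⟩

variable {Γ : Type} [Group Γ] [TopologicalSpace Γ] [IsTopologicalGroup Γ] [CompactSpace Γ]

lemma nearGroup_finiteIndex (ρ : Γ →* Matrix ι ι ℚ_[p]) (hρ : Continuous ρ) (ν : Γ →* ℚ_[p])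
    (hν : Continuous ν) : (nearGroup ρ ν).FiniteIndex := by
  have hr : (0 : ℝ) < ((p : ℝ)⁻¹) ^ 2 := pow_pos (inv_pos.2 p_pos) _
  have key : ((nearGroup ρ ν : Subgroup Γ) : Set Γ) ∈ 𝓝 (1 : Γ) := by
    have h1 : ∀ f : Γ → ℚ_[p], Continuous f → f 1 = 0 → ∀ᶠ g in 𝓝 (1 : Γ),
        ‖f g‖ ≤ ((p : ℝ)⁻¹) ^ 2 := by
      intro f hf h0
      have h2 := (hf.tendsto 1).norm
      rw [h0, norm_zero] at h2
      exact (h2.eventually (gt_mem_nhds hr)).mono fun g hg => hg.le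
    have hinv : Continuous fun g : Γ => ρ g⁻¹ := hρ.comp continuous_inv
    have hinv' : Continuous fun g : Γ => ν g⁻¹ := hν.comp continuous_inv
    have hM : ∀ F : Γ → Matrix ι ι ℚ_[p], Continuous F → F 1 = 1 → ∀ᶠ g in 𝓝 (1 : Γ),
        Bd (((p : ℝ)⁻¹) ^ 2) (F g - 1) := by
      intro F hF h0
      refine eventually_all.2 fun i => eventually_all.2 fun j => ?_
      refine h1 (fun g => (F g - 1) i j) ?_ ?_
      · have h2 : Continuous fun g => F g i j :=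
          (continuous_apply j).comp ((continuous_apply i).comp hF)
        exact h2.sub continuous_const
      · rw [h0, sub_self]
        rfl
    filter_upwards [hM _ hρ (map_one ρ), hM _ hinv (by rw [inv_one, map_one]),
      h1 (fun g => ν g - 1) (hν.sub continuous_const) (by rw [map_one, sub_self]),
      h1 (fun g => ν g⁻¹ - 1) (hinv'.sub continuous_const) (by rw [inv_one, map_one, sub_self])]
      with g ha hb hc hd
    exact ⟨⟨ha, hb⟩, hc, hd⟩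
  have hopen : IsOpen ((nearGroup ρ ν : Subgroup Γ) : Set Γ) :=
    Subgroup.isOpen_of_mem_nhds _ key
  have := Subgroup.quotient_finite_of_isOpen _ hopen
  exact Subgroup.finiteIndex_of_finite_quotient

/-- The data of the limit of the difference quotients of an element close to one. -/
lemma exists_limit (ρ : Γ →* Matrix ι ι ℚ_[p]) (ν : Γ →* ℚ_[p]) {g : Γ}
    (hg : g ∈ nearGroup ρ ν) : ∃ (Y : Matrix ι ι ℚ_[p]) (y : Matrix Unit Unit ℚ_[p]) (φ : ℕ → ℕ),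
      StrictMono φ ∧ Tendsto (fun n => Yk (ρ g) (φ n)) atTop (𝓝 Y) ∧
        Tendsto (fun n => Yk (sc (ν g)) (φ n)) atTop (𝓝 y) := by
  obtain ⟨⟨hg1, -⟩, hg2, -⟩ := hg
  have hN1 : Bd (((p : ℝ)⁻¹) ^ 2) (sc (ν g) - 1) := by
    intro i j
    rw [Matrix.sub_apply, sc_apply, Matrix.one_apply_eq]
    exact hg2
  obtain ⟨Z, -, φ, hφ, hZ⟩ := tendsto_subseq_of_bounded
    (s := Metric.closedBall (0 : (ι → ι → ℚ_[p]) × (Unit → Unit → ℚ_[p])) 1)
    Metric.isBounded_closedBall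
    (x := fun s => ((Yk (ρ g) s : ι → ι → ℚ_[p]), (Yk (sc (ν g)) s : Unit → Unit → ℚ_[p]))) (fun s => by
      rw [mem_closedBall_zero_iff, Prod.norm_def]
      refine max_le ?_ ?_
      · refine (pi_norm_le_iff_of_nonneg zero_le_one).2 fun i =>
          (pi_norm_le_iff_of_nonneg zero_le_one).2 fun j => Yk_bd hg1 s i j
      · refine (pi_norm_le_iff_of_nonneg zero_le_one).2 fun i =>
          (pi_norm_le_iff_of_nonneg zero_le_one).2 fun j => Yk_bd hN1 s i j)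
  obtain ⟨Y, y⟩ := Z
  exact ⟨Y, y, φ, hφ, (continuous_fst.tendsto _).comp hZ, (continuous_snd.tendsto _).comp hZ⟩

/-- The limit, normalized by a scalar, kills all Tate classes. -/
lemma limit_kills (ρ : Γ →* Matrix ι ι ℚ_[p]) (ν : Γ →* ℚ_[p]) {g : Γ}
    {Y : Matrix ι ι ℚ_[p]} {y : Matrix Unit Unit ℚ_[p]} {φ : ℕ → ℕ} (hφ : StrictMono φ)
    (hY : Tendsto (fun n => Yk (ρ g) (φ n)) atTop (𝓝 Y))
    (hy : Tendsto (fun n => Yk (sc (ν g)) (φ n)) atTop (𝓝 y)) {n k w : ℕ} (hk : 2 * k = n * w)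
    {a : (Fin n → ι) → ℚ_[p]} (ha : IsTate ρ ν k a) :
    Kills (Y - ((w : ℚ_[p]) * y () () / 2) • 1) a := by
  obtain ⟨Δ, hΔ, h⟩ := ha
  obtain ⟨m, hm, -, hmem⟩ := Subgroup.exists_pow_mem_of_index_ne_zero hΔ.index_ne_zero g
  refine kills_of_limit hφ hY hy hk hm fun s v => ?_
  have h2 : (g ^ p ^ s) ^ m ∈ Δ := by
    rw [← pow_mul, mul_comm, pow_mul]
    exact Subgroup.pow_mem _ hmem _
  have h3 := h _ h2 v
  rw [map_pow, map_pow, map_pow, map_pow] at h3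
  exact h3

/-- The operators which kill all Tate classes. -/
def KT (w : ℕ) (ρ : Γ → Matrix ι ι ℚ_[p]) (ν : Γ → ℚ_[p]) (D : Matrix ι ι ℚ_[p]) : Prop :=
  ∀ (n k : ℕ) (a : (Fin n → ι) → ℚ_[p]), 2 * k = n * w → IsTate ρ ν k a → Kills D a

/-- **Operators which commute with all operators that kill the Tate classes commute with a subgroup
of finite index.** -/
theorem exists_comm (w : ℕ) (ρ : Γ →* Matrix ι ι ℚ_[p]) (ν : Γ →* ℚ_[p]) {c : Matrix ι ι ℚ_[p]}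
    (hc : ∀ D : Matrix ι ι ℚ_[p], KT w ρ ν D → c * D = D * c) :
    ∀ g ∈ nearGroup ρ ν, c * ρ g = ρ g * c := by
  intro g hg
  obtain ⟨Y, y, φ, hφ, hY, hy⟩ := exists_limit ρ ν hg
  have h1 := hc _ (fun n k a hk ha => limit_kills ρ ν hφ hY hy hk ha)
  refine comm_of_limit hg.1.1 hY ?_
  rw [mul_sub, sub_mul, Matrix.mul_smul, Matrix.smul_mul, mul_one, one_mul] at h1
  exact sub_left_injective h1

end Run7.h877.MT
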