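import Mathlib

/-!
# The orthogonal projector for the trace form
-/

set_option autoImplicit false
set_option linter.unusedSectionVars false

namespace Run7.h877.MT

open Matrix Module

variable {ι : Type} [Fintype ι] [DecidableEq ι] {K : Type} [Field K]

/-- the trace form is nondegenerate on `L` -/
def ND (L : Submodule K (Matrix ι ι K)) : Prop :=
  ∀ X ∈ L, (∀ Y ∈ L, (X * Y).trace = 0) → X = 0

theorem exists_proj {L : Submodule K (Matrix ι ι K)} (hnd : ND L) :
    ∃ Q : Matrix ι ι K →ₗ[K] Matrix ι ι K, (∀ X, Q X ∈ L) ∧ (∀ X ∈ L, Q X = X) ∧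
      ∀ X, ∀ W ∈ L, (Q X * W).trace = (X * W).trace := by
  let B : Matrix ι ι K →ₗ[K] Dual K L :=
    { toFun := fun A => (Matrix.traceLinearMap ι K K) ∘ₗ (LinearMap.mulLeft K A) ∘ₗ L.subtype
      map_add' := fun A A' => by
        refine LinearMap.ext fun W => ?_
        change ((A + A') * W.1).trace = (A * W.1).trace + (A' * W.1).trace
        rw [Matrix.add_mul, Matrix.trace_add]
      map_smul' := fun c A => by
        refine LinearMap.ext fun W => ?_
        change ((c • A) * W.1).trace = c • (A * W.1).trace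
        rw [Matrix.smul_mul, Matrix.trace_smul] }
  have hB : ∀ A (W : L), B A W = (A * W.1).trace := fun A W => rfl
  have hinj : Function.Injective (B ∘ₗ L.subtype) := by
    rw [injective_iff_map_eq_zero]
    intro X hX
    apply Subtype.ext
    refine hnd X.1 X.2 fun Y hY => ?_
    exact LinearMap.congr_fun hX ⟨Y, hY⟩
  let e : L ≃ₗ[K] Dual K L := LinearMap.linearEquivOfInjective (B ∘ₗ L.subtype) hinj
    (Subspace.dual_finrank_eq).symm
  have he : ∀ X : L, e X = B X.1 := fun X => rfl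
  refine ⟨L.subtype ∘ₗ e.symm.toLinearMap ∘ₗ B, fun A => (e.symm (B A)).2, fun A hA => ?_, ?_⟩
  · have h1 : e.symm (B A) = ⟨A, hA⟩ := by
      rw [LinearEquiv.symm_apply_eq, he]
    change ((e.symm (B A) : L) : Matrix ι ι K) = A
    rw [h1]
  · intro A W hW
    change (((e.symm (B A) : L) : Matrix ι ι K) * W).trace = _
    have h1 : e (e.symm (B A)) = B A := e.apply_symm_apply _
    rw [he] at h1
    exact LinearMap.congr_fun h1 ⟨W, hW⟩

theorem eq_of_traces {L : Submodule K (Matrix ι ι K)} (hnd : ND L) {X Y : Matrix ι ι K}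
    (hX : X ∈ L) (hY : Y ∈ L) (h : ∀ W ∈ L, (X * W).trace = (Y * W).trace) : X = Y := by
  rw [← sub_eq_zero]
  refine hnd _ (L.sub_mem hX hY) fun W hW => ?_
  rw [sub_mul, Matrix.trace_sub, h W hW, sub_self]

/-- The projector commutes with the conjugations which stabilize `L`. -/
theorem proj_conj {L : Submodule K (Matrix ι ι K)} (hnd : ND L)
    {Q : Matrix ι ι K →ₗ[K] Matrix ι ι K} (hQ : ∀ X, Q X ∈ L)
    (hQt : ∀ X, ∀ W ∈ L, (Q X * W).trace = (X * W).trace) {g g' : Matrix ι ι K}
    (h : ∀ X ∈ L, g * X * g' ∈ L) (h' : ∀ X ∈ L, g' * X * g ∈ L) (X : Matrix ι ι K) :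
    Q (g * X * g') = g * Q X * g' := by
  refine eq_of_traces hnd (hQ _) (h _ (hQ X)) fun W hW => ?_
  rw [hQt _ W hW]
  have h2 : ∀ C : Matrix ι ι K, (g * C * g' * W).trace = (C * (g' * W * g)).trace := by
    intro C
    have e1 : g * C * g' * W = g * (C * g' * W) := by simp only [Matrix.mul_assoc]
    rw [e1, Matrix.trace_mul_comm]
    simp only [Matrix.mul_assoc]
  rw [h2, h2, hQt X _ (h' W hW)]

/-- The projector commutes with the brackets with the elements of `L`. -/
theorem proj_ad {L : Submodule K (Matrix ι ι K)} (hnd : ND L)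
    (hlie : ∀ X ∈ L, ∀ Y ∈ L, X * Y - Y * X ∈ L)
    {Q : Matrix ι ι K →ₗ[K] Matrix ι ι K} (hQ : ∀ X, Q X ∈ L)
    (hQt : ∀ X, ∀ W ∈ L, (Q X * W).trace = (X * W).trace) {l : Matrix ι ι K} (hl : l ∈ L)
    (X : Matrix ι ι K) : Q (l * X - X * l) = l * Q X - Q X * l := by
  refine eq_of_traces hnd (hQ _) (hlie _ hl _ (hQ X)) fun W hW => ?_
  rw [hQt _ W hW]
  have h2 : ∀ C : Matrix ι ι K, ((l * C - C * l) * W).trace = (C * (W * l - l * W)).trace := by
    intro C
    rw [sub_mul, mul_sub, Matrix.trace_sub, Matrix.trace_sub, Matrix.mul_assoc l C W,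
      Matrix.trace_mul_comm l]
    simp only [Matrix.mul_assoc]
  rw [h2, h2, hQt X _ (hlie _ hW _ hl)]

end Run7.h877.MT
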