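import Mathlib
import Pool.Agent.Run7.h877.MT.Log

/-!
# Forms which are killed by the Lie algebra of the Tate classes are Tate classes
-/

set_option autoImplicit false
set_option linter.unusedSectionVars false

namespace Run7.h877.MT

open Matrix Filter Topology

variable {ι : Type} [Fintype ι] [DecidableEq ι]

section

variable {K : Type} [Field K]

/-- the matrix of the action on the forms in `n` variables -/
def tm (n : ℕ) (T : Matrix ι ι K) : Matrix (Fin n → ι) (Fin n → ι) K :=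
  fun i u => ∏ j, T (u j) (i j)

lemma tm_mulVec (n : ℕ) (T : Matrix ι ι K) (a : (Fin n → ι) → K) : tm n T *ᵥ a = ga T a := by
  funext i
  rw [Matrix.mulVec, dotProduct, ga]
  exact Finset.sum_congr rfl fun u _ => mul_comm _ _

lemma tm_mul (n : ℕ) (A B : Matrix ι ι K) : tm n (A * B) = tm n B * tm n A := by
  ext i u
  rw [tm, Matrix.mul_apply]
  simp only [Matrix.mul_apply, tm]
  rw [Finset.prod_univ_sum, Fintype.piFinset_univ]
  refine Finset.sum_congr rfl fun x _ => ?_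
  rw [Finset.prod_mul_distrib, mul_comm]

lemma tm_one (n : ℕ) : tm n (1 : Matrix ι ι K) = 1 := by
  ext i u
  rw [tm, Matrix.one_apply]
  by_cases h : i = u
  · subst h
    rw [if_pos rfl]
    exact Finset.prod_eq_one fun j _ => Matrix.one_apply_eq _
  · rw [if_neg h]
    obtain ⟨j, hj⟩ := Function.ne_iff.1 h
    exact Finset.prod_eq_zero (Finset.mem_univ j) (Matrix.one_apply_ne (Ne.symm hj))

lemma tm_pow (n : ℕ) (T : Matrix ι ι K) (k : ℕ) : tm n (T ^ k) = tm n T ^ k := by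
  induction k with
  | zero => rw [pow_zero, pow_zero, tm_one]
  | succ k ih => rw [pow_succ, tm_mul, ih, pow_succ']

lemma ev_pi_single {n : ℕ} (G : Matrix ι ι K) (i u : Fin n → ι) :
    ev (Pi.single u (1 : K) : (Fin n → ι) → K) (fun j => G *ᵥ Pi.single (i j) 1) =
      tm n G i u := by
  rw [ev, Finset.sum_eq_single u, Pi.single_eq_same, one_mul, tm]
  · refine Finset.prod_congr rfl fun j _ => ?_
    rw [Matrix.mulVec_single_one, Matrix.col_apply]
  · intro x _ hx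
    rw [Pi.single_eq_of_ne hx, zero_mul]
  · intro h; exact absurd (Finset.mem_univ _) h

lemma ev_pi_single' {n : ℕ} (i u : Fin n → ι) :
    ev (Pi.single u (1 : K) : (Fin n → ι) → K) (fun j => Pi.single (i j) 1) =
      (1 : Matrix (Fin n → ι) (Fin n → ι) K) i u := by
  rw [← tm_one, ← ev_pi_single]
  simp only [Matrix.one_mulVec]

/-- the matrix of the derivative -/
def dm (n : ℕ) (Y : Matrix ι ι K) : Matrix (Fin n → ι) (Fin n → ι) K :=
  fun i u => dv Y (Pi.single u 1) i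

lemma dm_mulVec (n : ℕ) (Y : Matrix ι ι K) (a : (Fin n → ι) → K) : dm n Y *ᵥ a = dv Y a := by
  have h1 : a = ∑ u, a u • (Pi.single u (1 : K) : (Fin n → ι) → K) := by
    funext x
    rw [Finset.sum_apply, Finset.sum_eq_single x]
    · simp
    · intro z _ hz
      simp [Ne.symm hz]
    · intro h; exact absurd (Finset.mem_univ _) h
  funext i
  have h2 : dv Y a = ∑ u, a u • dv Y (Pi.single u (1 : K)) := by
    have h3 : dvR Y a = dvR Y (∑ u, a u • (Pi.single u (1 : K) : (Fin n → ι) → K)) :=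
      congrArg _ h1
    rw [map_sum] at h3
    refine h3.trans (Finset.sum_congr rfl fun u _ => ?_)
    rw [map_smul]
    rfl
  rw [h2, Matrix.mulVec, dotProduct, Finset.sum_apply]
  exact Finset.sum_congr rfl fun u _ => mul_comm _ _

lemma dv_one (n : ℕ) (a : (Fin n → ι) → K) : dv 1 a = (n : K) • a := by
  funext i
  rw [dv]
  have h1 : ∀ j : Fin n, ∑ k, (1 : Matrix ι ι K) k (i j) * a (Function.update i j k) = a i := by
    intro j
    rw [Finset.sum_eq_single (i j), Matrix.one_apply_eq, Function.update_eq_self, one_mul]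
    · intro x _ hx
      rw [Matrix.one_apply_ne hx, zero_mul]
    · intro h; exact absurd (Finset.mem_univ _) h
  rw [Finset.sum_congr rfl fun j _ => h1 j, Finset.sum_const, Finset.card_univ, Fintype.card_fin,
    nsmul_eq_mul, Pi.smul_apply, smul_eq_mul]

end

variable {p : ℕ} [hp : Fact p.Prime]

lemma prod_near {r : ℝ} (hr : 0 ≤ r) {α : Type} (s : Finset α) (a b : α → ℚ_[p])
    (h : ∀ j, ‖a j - b j‖ ≤ r) (ha : ∀ j, ‖a j‖ ≤ 1) (hb : ∀ j, ‖b j‖ ≤ 1) :
    ‖∏ j ∈ s, a j - ∏ j ∈ s, b j‖ ≤ r := by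
  classical
  induction s using Finset.induction_on with
  | empty => rw [Finset.prod_empty, Finset.prod_empty, sub_self, norm_zero]; exact hr
  | insert x s hx ih =>
    rw [Finset.prod_insert hx, Finset.prod_insert hx]
    have e : a x * ∏ j ∈ s, a j - b x * ∏ j ∈ s, b j =
        a x * (∏ j ∈ s, a j - ∏ j ∈ s, b j) + (a x - b x) * ∏ j ∈ s, b j := by ring
    rw [e]
    refine (IsUltrametricDist.norm_add_le_max _ _).trans (max_le ?_ ?_)
    · rw [norm_mul]
      calc ‖a x‖ * ‖∏ j ∈ s, a j - ∏ j ∈ s, b j‖ ≤ 1 * r :=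
            mul_le_mul (ha x) ih (norm_nonneg _) zero_le_one
        _ = r := one_mul r
    · rw [norm_mul]
      have h1 : ‖∏ j ∈ s, b j‖ ≤ 1 := by
        rw [norm_prod]
        exact Finset.prod_le_one (fun j _ => norm_nonneg _) fun j _ => hb j
      calc ‖a x - b x‖ * ‖∏ j ∈ s, b j‖ ≤ r * 1 := mul_le_mul (h x) h1 (norm_nonneg _) hr
        _ = r := mul_one r

lemma tm_near {r : ℝ} (hr : 0 ≤ r) (hr1 : r ≤ 1) {T : Matrix ι ι ℚ_[p]} (hT : Bd r (T - 1))
    (n : ℕ) : Bd r (tm n T - 1) := by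
  intro i u
  rw [Matrix.sub_apply, ← tm_one n]
  refine prod_near hr Finset.univ _ _ (fun j => ?_) (fun j => ?_) (fun j => ?_)
  · exact hT (u j) (i j)
  · exact bd_of_near hr1 hT _ _
  · exact Bd.one _ _

/-- the action on the forms and the multiplier -/
noncomputable def blk (n k : ℕ) (T : Matrix ι ι ℚ_[p]) (b : ℚ_[p]) :
    Matrix ((Fin n → ι) ⊕ Unit) ((Fin n → ι) ⊕ Unit) ℚ_[p] :=
  Matrix.fromBlocks (tm n T) 0 0 (sc b ^ k)

lemma blk_near {r : ℝ} (hr : 0 ≤ r) (hr1 : r ≤ 1) {T : Matrix ι ι ℚ_[p]} (hT : Bd r (T - 1))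
    {b : ℚ_[p]} (hb : Bd r (sc b - 1)) (n k : ℕ) : Bd r (blk n k T b - 1) := by
  have h1 := tm_near hr hr1 hT n
  have h2 := near_pow hr hr1 hb k
  have h3 : blk n k T b - 1 = Matrix.fromBlocks (tm n T - 1) 0 0 (sc b ^ k - 1) := by
    rw [blk, ← Matrix.fromBlocks_one, sub_eq_add_neg, Matrix.fromBlocks_neg, Matrix.fromBlocks_add,
      neg_zero, neg_zero, add_zero, add_zero, sub_eq_add_neg, sub_eq_add_neg]
  rw [h3]
  rintro (i | i) (j | j)
  · exact h1 i j
  · rw [Matrix.fromBlocks_apply₁₂, Matrix.zero_apply, norm_zero]; exact hr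
  · rw [Matrix.fromBlocks_apply₂₁, Matrix.zero_apply, norm_zero]; exact hr
  · exact h2 i j

lemma blk_Yk (n k : ℕ) (T : Matrix ι ι ℚ_[p]) (b : ℚ_[p]) (s : ℕ) :
    Yk (blk n k T b) s = Matrix.fromBlocks (((p : ℚ_[p]) ^ s)⁻¹ • (tm n (T ^ p ^ s) - 1)) 0 0
      (((p : ℚ_[p]) ^ s)⁻¹ • ((sc b ^ p ^ s) ^ k - 1)) := by
  rw [Yk, blk, Matrix.fromBlocks_diagonal_pow, ← Matrix.fromBlocks_one, sub_eq_add_neg,
    Matrix.fromBlocks_neg, Matrix.fromBlocks_add, Matrix.fromBlocks_smul, neg_zero, neg_zero,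
    add_zero, add_zero, smul_zero, smul_zero, tm_pow, ← pow_mul, ← pow_mul, mul_comm k,
    sub_eq_add_neg, sub_eq_add_neg]

variable {Γ : Type} [Group Γ] [TopologicalSpace Γ] [IsTopologicalGroup Γ] [CompactSpace Γ]

/-- **Forms killed by all operators that kill the Tate classes are Tate classes.** -/
theorem tate_of_killed (w : ℕ) (ρ : Γ →* Matrix ι ι ℚ_[p]) (ν : Γ →* ℚ_[p]) {n k : ℕ}
    (hk : 2 * k = n * w) {a : (Fin n → ι) → ℚ_[p]}
    (ha : ∀ D : Matrix ι ι ℚ_[p], KT w ρ ν D → Kills D a) :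
    ∀ g ∈ nearGroup ρ ν, ∀ v : Fin n → ι → ℚ_[p],
      ev a (fun j => ρ g *ᵥ v j) = ν g ^ k * ev a v := by
  intro g hg v
  obtain ⟨Y, y, φ, hφ, hY, hy⟩ := exists_limit ρ ν hg
  have hK := ha _ (fun n k a hk ha => limit_kills ρ ν hφ hY hy hk ha)
  have ht : ∀ n, ((p : ℚ_[p]) ^ φ n) ≠ 0 := fun n => pk_ne _
  have ht0 : Tendsto (fun n => ((p : ℚ_[p]) ^ φ n)) atTop (𝓝 0) := by
    have h1 : Tendsto (fun n : ℕ => ((p : ℚ_[p]) ^ n)) atTop (𝓝 0) := by
      refine tendsto_pow_atTop_nhds_zero_of_norm_lt_one ?_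
      rw [Padic.norm_p]
      exact p_inv_lt
    exact h1.comp hφ.tendsto_atTop
  -- the limit on the forms
  have hlim1 : Tendsto (fun s => ((p : ℚ_[p]) ^ φ s)⁻¹ • (tm n (ρ g ^ p ^ φ s) - 1)) atTop
      (𝓝 (dm n Y)) := by
    refine tendsto_pi_nhds.2 fun i => tendsto_pi_nhds.2 fun u => ?_
    have h1 : Tendsto (fun s => ((p : ℚ_[p]) ^ φ s)⁻¹ • (ρ g ^ p ^ φ s - 1)) atTop (𝓝 Y) := hY
    have h2 := deriv_lim (Pi.single u (1 : ℚ_[p]) : (Fin n → ι) → ℚ_[p])
      (fun j => Pi.single (i j) 1) ht ht0 h1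
    have e1 : ev (dv Y (Pi.single u (1 : ℚ_[p]))) (fun j => Pi.single (i j) 1) = dm n Y i u :=
      ev_single _ _
    rw [sum_update_eq, e1] at h2
    refine h2.congr fun s => ?_
    rw [ev_pi_single, ev_pi_single', Matrix.smul_apply, Matrix.sub_apply, smul_eq_mul]
  have hlim2 : Tendsto (fun s => ((p : ℚ_[p]) ^ φ s)⁻¹ • ((sc (ν g) ^ p ^ φ s) ^ k - 1)) atTop
      (𝓝 ((k : ℚ_[p]) • y)) := by
    have h1 := lim_pow hy ht ht0 k
    simp only [← pow_eq_Yk] at h1
    exact h1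
  have hlim : Tendsto (fun s => Yk (blk n k (ρ g) (ν g)) (φ s)) atTop
      (𝓝 (Matrix.fromBlocks (dm n Y) 0 0 ((k : ℚ_[p]) • y))) := by
    have hc : Continuous fun x : Matrix (Fin n → ι) (Fin n → ι) ℚ_[p] × Matrix Unit Unit ℚ_[p] =>
        Matrix.fromBlocks x.1 (0 : Matrix (Fin n → ι) Unit ℚ_[p]) 0 x.2 :=
      continuous_fst.matrix_fromBlocks continuous_const continuous_const continuous_snd
    have h1 := (hc.tendsto (dm n Y, (k : ℚ_[p]) • y)).comp (hlim1.prodMk_nhds hlim2)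
    refine h1.congr fun s => ?_
    rw [blk_Yk]
    rfl
  have hN1 : Bd (((p : ℝ)⁻¹) ^ 2) (sc (ν g) - 1) := by
    intro i j
    rw [Matrix.sub_apply, sc_apply, Matrix.one_apply_eq]
    exact hg.2.1
  have hr : (0 : ℝ) ≤ ((p : ℝ)⁻¹) ^ 2 := by positivity
  have hr1 : ((p : ℝ)⁻¹) ^ 2 ≤ 1 := pow_le_one₀ (inv_pos.2 p_pos).le p_inv_lt.le
  -- the derivative
  have hd : dv Y a = ((k : ℚ_[p]) * y () ()) • a := by
    rw [kills_iff, sub_eq_add_neg, dv_add] at hK
    have h1 : dv (-(((w : ℚ_[p]) * y () () / 2) • (1 : Matrix ι ι ℚ_[p]))) a =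
        -(((k : ℚ_[p]) * y () ()) • a) := by
      rw [← neg_smul, dv_smul, dv_one, smul_smul, ← neg_smul]
      congr 1
      have hk' : (2 : ℚ_[p]) * (k : ℚ_[p]) = (n : ℚ_[p]) * (w : ℚ_[p]) := by exact_mod_cast hk
      linear_combination (y () () / 2) * hk'
    rw [h1] at hK
    exact eq_of_sub_eq_zero (by rw [sub_eq_add_neg]; exact hK)
  let P : Matrix (Fin n → ι) Unit ℚ_[p] := fun i _ => a i
  have hP : dm n Y * P = P * ((k : ℚ_[p]) • y) := by
    ext i u
    have h1 : (dm n Y * P) i u = (dm n Y *ᵥ a) i := rfl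
    rw [h1, dm_mulVec, hd, Matrix.mul_apply, Fintype.sum_unique, Pi.smul_apply, Matrix.smul_apply,
      smul_eq_mul, smul_eq_mul, mul_comm]
  have hcomm := comm_of_limit (c := Matrix.fromBlocks 0 P 0 0)
    (blk_near hr hr1 hg.1.1 hN1 n k) hlim (by
      rw [Matrix.fromBlocks_multiply, Matrix.fromBlocks_multiply]
      simp only [Matrix.zero_mul, Matrix.mul_zero, add_zero, zero_add]
      rw [hP])
  rw [blk, Matrix.fromBlocks_multiply, Matrix.fromBlocks_multiply] at hcomm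
  simp only [Matrix.zero_mul, Matrix.mul_zero, add_zero, zero_add] at hcomm
  have h1 := (Matrix.fromBlocks_inj.1 hcomm).2.1
  have h2 : ga (ρ g) a = ν g ^ k • a := by
    rw [← tm_mulVec]
    funext i
    have h3 := congrFun (congrFun h1 i) ()
    have h4 : (tm n (ρ g) * P) i () = (tm n (ρ g) *ᵥ a) i := rfl
    rw [← h4, ← h3, Matrix.mul_apply, Fintype.sum_unique, sc_pow, sc_apply, Pi.smul_apply,
      smul_eq_mul, mul_comm]
  rw [ev_ga, h2, ev_smul_left]

end Run7.h877.MT
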