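import Mathlib
import Pool.Agent.R913.Adj.Rep
import Pool.Agent.R913.Adj.Nil
import Pool.Agent.Run7.h877.MT.Tens
import Pool.Agent.Run7.h877.MT.Core
import Pool.Agent.Run7.h877.MT.Proj

/-!
# The trace form on the Lie algebra of the Tate forms of a semisimple representation

The Lie theoretic lemmas (replicas, Engel's theorem) are in the starting library
`Pool.Agent.R913.Adj`.
-/

set_option autoImplicit false
set_option linter.unusedSectionVars false

namespace Run7.h877.MT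

open Matrix Module TensorProduct Pool.Agent.TH118.SG Pool.Agent.Y114.RM Pool.Agent.Y86.RM
  Pool.Agent.R913.Adj Pool.Agent

section nil

variable {k : Type} [Field k] [CharZero k] {V : Type} [AddCommGroup V] [Module k V]
  [FiniteDimensional k V]

lemma bc_inj' {C : Type} [Field C] [Algebra k C] {X Y : End k V}
    (h : X.baseChange C = Y.baseChange C) : X = Y := by
  refine LinearMap.ext fun v => ?_
  have h1 := LinearMap.congr_fun h ((1 : C) ⊗ₜ[k] v)
  rw [LinearMap.baseChange_tmul, LinearMap.baseChange_tmul] at h1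
  exact (Module.FaithfullyFlat.tensorProduct_mk_injective (A := k) (B := C) V) h1

/-- Elements orthogonal to the Lie algebra of a tensor stabilizer are nilpotent (the proof is that of
the starting lemma `Pool.Agent.R913.Adj.nilpotent_of_orth`). -/
theorem nilp_end {L : Submodule k (End k V)}
    (hcl : ∀ X, (∀ (m : ℕ) (φ : Tensor k V m), (∀ Y ∈ L, KillsTensor Y φ) → KillsTensor X φ) →
      X ∈ L) {X : End k V} (hX : X ∈ L)
    (h : ∀ Y ∈ L, LinearMap.trace k V (X * Y) = 0) : IsNilpotent X := by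
  let C := AlgebraicClosure k
  have hC : ∀ s ∈ bcS C L, LinearMap.trace C (C ⊗[k] V) (X.baseChange C * s) = 0 := by
    intro s hs
    induction hs using Submodule.span_induction with
    | mem s hs =>
      obtain ⟨Y, hY, rfl⟩ := hs
      have e1 : X.baseChange C * Y.baseChange C = (X * Y).baseChange C :=
        (LinearMap.baseChange_comp _ _).symm
      rw [e1, LinearMap.trace_baseChange, h Y hY, map_zero]
    | zero => rw [mul_zero, map_zero]
    | add x y _ _ hx hy => rw [mul_add, map_add, hx, hy, add_zero]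
    | smul c x _ hx => rw [mul_smul_comm, map_smul, hx, smul_zero]
  have hn : IsNilpotent (X.baseChange C) := nilpotent_of_traces _ fun f s hs =>
    hC s (rep_mem hcl f (Submodule.subset_span ⟨X, hX, rfl⟩) hs)
  obtain ⟨n, hn⟩ := hn
  refine ⟨n, bc_inj' (C := C) ?_⟩
  have h1 : ∀ m : ℕ, (X ^ m).baseChange C = X.baseChange C ^ m := by
    intro m
    induction m with
    | zero => rw [pow_zero, pow_zero]; exact LinearMap.baseChange_id
    | succ m ih =>
      rw [pow_succ, pow_succ, ← ih]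
      exact LinearMap.baseChange_comp _ _
  rw [h1, hn, LinearMap.baseChange_zero]

end nil

section mat

variable {ι : Type} [Fintype ι] [DecidableEq ι] {K : Type} [Field K] [CharZero K]

lemma trace_toLin (X : Matrix ι ι K) : LinearMap.trace K (ι → K) (Matrix.toLin' X) = X.trace := by
  rw [LinearMap.trace_eq_matrix_trace K (Pi.basisFun K ι), LinearMap.toMatrix_eq_toMatrix',
    LinearMap.toMatrix'_toLin']

theorem nilp_matrix {L : Submodule K (Matrix ι ι K)}
    (hcl : ∀ X, (∀ (n : ℕ) (a : (Fin n → ι) → K), (∀ Y ∈ L, Kills Y a) → Kills X a) → X ∈ L)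
    {X : Matrix ι ι K} (hX : X ∈ L) (h : ∀ Y ∈ L, (X * Y).trace = 0) :
    IsNilpotent (Matrix.toLin' X) := by
  let e : Matrix ι ι K ≃ₗ[K] End K (ι → K) := Matrix.toLin'
  refine nilp_end (L := L.map e.toLinearMap) ?_ ⟨X, hX, rfl⟩ ?_
  · intro Y hY
    refine ⟨LinearMap.toMatrix' Y, hcl _ fun n a ha v => ?_, Matrix.toLin'_toMatrix' Y⟩
    let φ : Tensor K (ι → K) n := (evM a).compLinearMap fun _ => LinearMap.fst K _ _
    have hφ : ∀ u, φ u = ev a (fun j => (u j).1) := fun u => evM_apply a _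
    have key : ∀ (Z : End K (ι → K)) (u : Fin n → (ι → K) × Dual K (ι → K)) (l : Fin n),
        φ (Function.update u l (lie Z (u l))) =
          ev a (Function.update (fun j => (u j).1) l (Z (u l).1)) := by
      intro Z u l
      rw [hφ]
      congr 1
      funext j
      by_cases hj : j = l
      · subst hj
        rw [Function.update_self, Function.update_self]
        rfl
      · rw [Function.update_of_ne hj, Function.update_of_ne hj]
    have h1 := hY n φ (by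
      rintro _ ⟨D, hD, rfl⟩ u
      have h2 := ha D hD fun j => (u j).1
      rw [← h2]
      exact Finset.sum_congr rfl fun l _ => key _ _ _) (fun j => (v j, 0))
    rw [← h1]
    refine Finset.sum_congr rfl fun l _ => ?_
    rw [key, LinearMap.toMatrix'_mulVec]
  · rintro _ ⟨Y, hY, rfl⟩
    have h1 : Matrix.toLin' X * (e : Matrix ι ι K →ₗ[K] End K (ι → K)) Y =
        Matrix.toLin' (X * Y) := (Matrix.toLin'_mul X Y).symm
    rw [h1, trace_toLin, h Y hY]

end mat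

variable {ι : Type} [Fintype ι] [DecidableEq ι] {p : ℕ} [hp : Fact p.Prime]
  {Γ : Type} [Group Γ] [TopologicalSpace Γ] [IsTopologicalGroup Γ] [CompactSpace Γ]

/-- the operators which kill the Tate forms -/
def LT (w : ℕ) (ρ : Γ →* Matrix ι ι ℚ_[p]) (ν : Γ →* ℚ_[p]) :
    Submodule ℚ_[p] (Matrix ι ι ℚ_[p]) where
  carrier := {D | KT w ρ ν D}
  add_mem' := fun h h' n k a hk ha => (h n k a hk ha).add (h' n k a hk ha)
  zero_mem' := fun _ _ _ _ _ => Kills.zero
  smul_mem' := fun c _ h n k a hk ha => (h n k a hk ha).smul c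

lemma LT_lie (w : ℕ) (ρ : Γ →* Matrix ι ι ℚ_[p]) (ν : Γ →* ℚ_[p]) :
    ∀ X ∈ LT w ρ ν, ∀ Y ∈ LT w ρ ν, X * Y - Y * X ∈ LT w ρ ν :=
  fun _ hX _ hY n k a hk ha => (hX n k a hk ha).bracket (hY n k a hk ha)

lemma rho_mul_inv (ρ : Γ →* Matrix ι ι ℚ_[p]) (g : Γ) : ρ g * ρ g⁻¹ = 1 := by
  rw [← map_mul, mul_inv_cancel, map_one]

lemma rho_inv_mul (ρ : Γ →* Matrix ι ι ℚ_[p]) (g : Γ) : ρ g⁻¹ * ρ g = 1 := by
  rw [← map_mul, inv_mul_cancel, map_one]

/-- transport of the killing property -/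
lemma Kills.transport {K : Type} [Field K] {κ : Type} [Fintype κ] [DecidableEq κ]
    {a : (κ → ι) → K} {g g' X : Matrix ι ι K} (hgg' : g * g' = 1)
    (h : Kills X (ga g a)) : Kills (g * X * g') a := by
  intro v
  have h1 := h fun j => g' *ᵥ v j
  rw [← h1]
  refine Finset.sum_congr rfl fun j _ => ?_
  rw [← ev_ga]
  congr 1
  funext i
  by_cases hi : i = j
  · subst hi
    rw [Function.update_self, Function.update_self, Matrix.mulVec_mulVec, Matrix.mulVec_mulVec,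
      Matrix.mul_assoc]
  · rw [Function.update_of_ne hi, Function.update_of_ne hi, Matrix.mulVec_mulVec, hgg',
      Matrix.one_mulVec]

lemma IsTate.conj {ρ : Γ →* Matrix ι ι ℚ_[p]} {ν : Γ →* ℚ_[p]} {k n : ℕ}
    {a : (Fin n → ι) → ℚ_[p]} (ha : IsTate ρ ν k a) (g : Γ) : IsTate ρ ν k (ga (ρ g) a) := by
  obtain ⟨Δ, hΔ, h⟩ := ha
  refine ⟨Δ.normalCore, inferInstance, fun x hx v => ?_⟩
  rw [← ev_ga, ← ev_ga]
  have h1 : g * x * g⁻¹ ∈ Δ :=
    Subgroup.normalCore_le _ ((Subgroup.normalCore_normal Δ).conj_mem x hx g)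
  have h2 := h _ h1 fun j => ρ g *ᵥ v j
  have h3 : ν (g * x * g⁻¹) = ν x := by
    rw [map_mul, map_mul, mul_comm (ν g), mul_assoc, ← map_mul, mul_inv_cancel, map_one, mul_one]
  rw [h3] at h2
  rw [← h2]
  congr 1
  funext j
  rw [Matrix.mulVec_mulVec, Matrix.mulVec_mulVec, ← map_mul, ← map_mul, inv_mul_cancel_right]

lemma LT_conj (w : ℕ) (ρ : Γ →* Matrix ι ι ℚ_[p]) (ν : Γ →* ℚ_[p]) (g : Γ) :
    ∀ X ∈ LT w ρ ν, ρ g * X * ρ g⁻¹ ∈ LT w ρ ν := fun X hX n k a hk ha =>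
  Kills.transport (rho_mul_inv ρ g) (hX n k _ hk (ha.conj g))

/-- The representation is semisimple. -/
def SemisimpleRep {Γ K : Type} [Group Γ] [Field K] (ρ : Γ → Matrix ι ι K) : Prop :=
  ∀ W : Submodule K (ι → K), (∀ g, ∀ x ∈ W, ρ g *ᵥ x ∈ W) →
    ∃ U : Submodule K (ι → K), (∀ g, ∀ x ∈ U, ρ g *ᵥ x ∈ U) ∧ IsCompl W U

/-- operators which commute with a subgroup of finite index define Tate forms -/
lemma bil_tate {w : ℕ} {ρ : Γ →* Matrix ι ι ℚ_[p]} {ν : Γ →* ℚ_[p]} {β : Matrix ι ι ℚ_[p]}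
    (hsim : ∀ g, (ρ g)ᵀ * β * ρ g = ν g ^ w • β) {c : Matrix ι ι ℚ_[p]} {Δ : Subgroup Γ}
    (hΔ : Δ.FiniteIndex) (hc : ∀ g ∈ Δ, c * ρ g = ρ g * c) : IsTate ρ ν w (bil β c) := by
  refine ⟨Δ, hΔ, fun g hg v => ?_⟩
  rw [ev_bil, ev_bil, Matrix.mulVec_mulVec, hc g hg, ← Matrix.mulVec_mulVec, dot_left,
    Matrix.mulVec_mulVec, Matrix.mulVec_mulVec, hsim, Matrix.smul_mulVec, dotProduct_smul,
    smul_eq_mul]

lemma LT_skew {w : ℕ} {ρ : Γ →* Matrix ι ι ℚ_[p]} {ν : Γ →* ℚ_[p]} {β : Matrix ι ι ℚ_[p]}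
    (hsim : ∀ g, (ρ g)ᵀ * β * ρ g = ν g ^ w • β) {X : Matrix ι ι ℚ_[p]} (hX : X ∈ LT w ρ ν) :
    Skew β X := by
  have h1 : IsTate ρ ν w (bil β 1) :=
    bil_tate hsim (Δ := ⊤) inferInstance fun g _ => by rw [one_mul, mul_one]
  exact kills_bil_one.1 (hX 2 w _ rfl h1)

/-- **The trace form is nondegenerate on the Lie algebra of the Tate forms.** -/
theorem LT_nd {w : ℕ} {ρ : Γ →* Matrix ι ι ℚ_[p]} {ν : Γ →* ℚ_[p]} {β : Matrix ι ι ℚ_[p]}
    (hβ : IsUnit β.det) (hsim : ∀ g, (ρ g)ᵀ * β * ρ g = ν g ^ w • β) (hss : SemisimpleRep ρ) :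
    ND (LT w ρ ν) := by
  let L := LT w ρ ν
  let R : Submodule ℚ_[p] (Matrix ι ι ℚ_[p]) :=
    { carrier := {X | X ∈ L ∧ ∀ Y ∈ L, (X * Y).trace = 0}
      zero_mem' := ⟨L.zero_mem, fun Y _ => by rw [Matrix.zero_mul, Matrix.trace_zero]⟩
      add_mem' := fun {a b} ha hb => ⟨L.add_mem ha.1 hb.1, fun Y hY => by
        rw [Matrix.add_mul, Matrix.trace_add, ha.2 Y hY, hb.2 Y hY, add_zero]⟩
      smul_mem' := fun c a ha => ⟨L.smul_mem c ha.1, fun Y hY => by
        rw [Matrix.smul_mul, Matrix.trace_smul, ha.2 Y hY, smul_zero]⟩ }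
  have hRlie : ∀ X ∈ R, ∀ Y ∈ R, X * Y - Y * X ∈ R := by
    intro X hX Y hY
    refine ⟨LT_lie w ρ ν X hX.1 Y hY.1, fun Z hZ => ?_⟩
    have h1 : ((X * Y - Y * X) * Z).trace = (X * (Y * Z - Z * Y)).trace := by
      rw [sub_mul, mul_sub, Matrix.trace_sub, Matrix.trace_sub, Matrix.mul_assoc X,
        Matrix.mul_assoc Y, ← Matrix.mul_assoc X Z Y, Matrix.trace_mul_comm Y]
    rw [h1]
    exact hX.2 _ (LT_lie w ρ ν Y hY.1 Z hZ)
  have hnil : ∀ X ∈ R, IsNilpotent (Matrix.toLin' X) := by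
    intro X hX
    refine nilp_matrix (L := L) (fun Y hY n k a hk ha => hY n a fun Z hZ => hZ n k a hk ha)
      hX.1 hX.2
  have hRconj : ∀ g, ∀ X ∈ R, ρ g * X * ρ g⁻¹ ∈ R := by
    intro g X hX
    refine ⟨LT_conj w ρ ν g X hX.1, fun Y hY => ?_⟩
    have h1 := hX.2 _ (LT_conj w ρ ν g⁻¹ Y hY)
    rw [inv_inv] at h1
    rw [← h1]
    have e1 : ρ g * X * ρ g⁻¹ * Y = ρ g * (X * ρ g⁻¹ * Y) := by simp only [Matrix.mul_assoc]
    rw [e1, Matrix.trace_mul_comm]
    simp only [Matrix.mul_assoc]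
  let W : Submodule ℚ_[p] (ι → ℚ_[p]) :=
    { carrier := {v | ∀ X ∈ R, X *ᵥ v = 0}
      zero_mem' := fun X _ => Matrix.mulVec_zero X
      add_mem' := fun {a b} ha hb X hX => by rw [Matrix.mulVec_add, ha X hX, hb X hX, add_zero]
      smul_mem' := fun c a ha X hX => by rw [Matrix.mulVec_smul, ha X hX, smul_zero] }
  have hWst : ∀ g, ∀ x ∈ W, ρ g *ᵥ x ∈ W := by
    intro g x hx X hX
    have h1 := hx _ (hRconj g⁻¹ X hX)
    rw [inv_inv] at h1
    have h2 : X *ᵥ (ρ g *ᵥ x) = ρ g *ᵥ ((ρ g⁻¹ * X * ρ g) *ᵥ x) := by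
      rw [Matrix.mulVec_mulVec, Matrix.mulVec_mulVec, ← Matrix.mul_assoc, ← Matrix.mul_assoc,
        rho_mul_inv, Matrix.one_mul]
    rw [h2, h1, Matrix.mulVec_zero]
  obtain ⟨U, hU, hc⟩ := hss W hWst
  -- the projector onto `U`
  have hRU : ∀ X ∈ R, ∀ u ∈ U, X *ᵥ u ∈ U := by
    let P : End ℚ_[p] (ι → ℚ_[p]) := U.subtype ∘ₗ Submodule.projectionOnto U W hc.symm
    have hP : ∀ a ∈ U, ∀ b ∈ W, P (a + b) = a := by
      intro a ha b hb
      change ((Submodule.projectionOnto U W hc.symm (a + b) : U) : ι → ℚ_[p]) = a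
      rw [map_add, Submodule.projectionOnto_apply_of_mem_right hc.symm hb, add_zero]
      exact congrArg Subtype.val (Submodule.projectionOnto_apply_left hc.symm ⟨a, ha⟩)
    have hex : ∀ v, ∃ a ∈ U, ∃ b ∈ W, a + b = v := fun v =>
      Submodule.mem_sup.1 (by rw [hc.symm.sup_eq_top]; trivial)
    let c := LinearMap.toMatrix' P
    have hcv : ∀ v, c *ᵥ v = P v := fun v => LinearMap.toMatrix'_mulVec P v
    have hcc : ∀ g ∈ (⊤ : Subgroup Γ), c * ρ g = ρ g * c := by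
      intro g _
      refine Matrix.toLin'.injective (LinearMap.ext fun v => ?_)
      rw [Matrix.toLin'_apply, Matrix.toLin'_apply, ← Matrix.mulVec_mulVec,
        ← Matrix.mulVec_mulVec, hcv, hcv]
      obtain ⟨a, ha, b, hb, rfl⟩ := hex v
      rw [hP a ha b hb, Matrix.mulVec_add, hP _ (hU g a ha) _ (hWst g b hb)]
    have hT : IsTate ρ ν w (bil β c) := bil_tate hsim (Δ := ⊤) inferInstance hcc
    intro X hX u hu
    have h1 := comm_of_kills hβ (LT_skew hsim hX.1) (hX.1 2 w _ rfl hT)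
    have h2 : c *ᵥ u = u := by
      rw [hcv]
      have := hP u hu 0 (Submodule.zero_mem _)
      rwa [add_zero] at this
    have h3 : X *ᵥ u = c *ᵥ (X *ᵥ u) := by
      conv_lhs => rw [← h2]
      rw [Matrix.mulVec_mulVec, h1, ← Matrix.mulVec_mulVec]
    rw [h3, hcv]
    exact (Submodule.projectionOnto U W hc.symm (X *ᵥ u)).2
  have hUbot : U = ⊥ := by
    by_contra hne
    obtain ⟨u, hu, hu0, hk⟩ := exists_killed
      (R := R.map (Matrix.toLin' : Matrix ι ι ℚ_[p] ≃ₗ[ℚ_[p]] End ℚ_[p] (ι → ℚ_[p])).toLinearMap)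
      (by
        rintro _ ⟨X, hX, rfl⟩ _ ⟨Y, hY, rfl⟩
        refine ⟨X * Y - Y * X, hRlie X hX Y hY, ?_⟩
        change Matrix.toLin' (X * Y - Y * X) =
          Matrix.toLin' X * Matrix.toLin' Y - Matrix.toLin' Y * Matrix.toLin' X
        rw [map_sub, Matrix.toLin'_mul, Matrix.toLin'_mul]
        rfl)
      (by rintro _ ⟨X, hX, rfl⟩; exact hnil X hX)
      (U := U) (by rintro _ ⟨X, hX, rfl⟩ u hu; exact hRU X hX u hu) hne
    refine hu0 ((Submodule.disjoint_def.1 hc.disjoint) u (fun X hX => ?_) hu)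
    exact hk _ ⟨X, hX, rfl⟩
  have hWtop : W = ⊤ := by
    have h1 := hc.sup_eq_top
    rwa [hUbot, sup_bot_eq] at h1
  intro X hX hXt
  refine Matrix.toLin'.injective (LinearMap.ext fun v => ?_)
  have hv : v ∈ W := by
    rw [hWtop]
    trivial
  rw [Matrix.toLin'_apply, map_zero, LinearMap.zero_apply]
  exact hv X ⟨hX, hXt⟩

end Run7.h877.MT
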