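import Mathlib
import Pool.Agent.Run7.h877.MT.Hdg
import Pool.Agent.Run7.h877.MT.SemiT

/-!
# Degree four decides
-/

set_option autoImplicit false
set_option linter.unusedSectionVars false

namespace Run7.h877.MT

open Matrix Module

variable {ι : Type} [Fintype ι] [DecidableEq ι]

section span

variable {K : Type} [Field K] {κ : Type} [Fintype κ] [DecidableEq κ]

lemma kills_span {D : Matrix ι ι K} {S : Set ((κ → ι) → K)} (h : ∀ a ∈ S, Kills D a)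
    {t : (κ → ι) → K} (ht : t ∈ Submodule.span K S) : Kills D t := by
  induction ht using Submodule.span_induction with
  | mem x hx => exact h x hx
  | zero => rw [kills_iff]; exact map_zero (dvR D)
  | add x y _ _ hx hy => rw [kills_iff] at *; rw [dv_add', hx, hy, add_zero]
  | smul c x _ hx => rw [kills_iff] at *; rw [dv_smul', hx, smul_zero]

end span

lemma span_cst_le {F : Type} [Field F] {α : Type} (S : Set (α → ℚ)) :
    Submodule.span F (cst F '' S) ≤ spF F (Submodule.span ℚ S) := by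
  rw [Submodule.span_le]
  rintro _ ⟨a, ha, rfl⟩
  exact Submodule.subset_span ⟨a, Submodule.subset_span ha, rfl⟩

lemma spF_le {F : Type} [Field F] [CharZero F] {α : Type} (S : Set (α → ℚ)) :
    spF F (Submodule.span ℚ S) ≤ Submodule.span F (cst F '' S) := by
  rw [spF, Submodule.span_le]
  rintro _ ⟨a, ha, rfl⟩
  change cst F a ∈ Submodule.span F (cst F '' S)
  induction ha using Submodule.span_induction with
  | mem x hx => exact Submodule.subset_span ⟨x, hx, rfl⟩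
  | zero =>
    have : cst F (0 : α → ℚ) = 0 := by funext i; simp [cst]
    rw [this]; exact Submodule.zero_mem _
  | add x y _ _ hx hy =>
    have : cst F (x + y) = cst F x + cst F y := by funext i; simp [cst]
    rw [this]; exact Submodule.add_mem _ hx hy
  | smul c x _ hx =>
    have : cst F (c • x) = (c : F) • cst F x := by funext i; simp [cst]
    rw [this]; exact Submodule.smul_mem _ _ hx

/-- The projector onto a Lie algebra with a nondegenerate trace form. -/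
structure PD {K : Type} [Field K] (β : Matrix ι ι K) (L : Submodule K (Matrix ι ι K))
    (Q : Matrix ι ι K →ₗ[K] Matrix ι ι K) : Prop where
  mem : ∀ X, Q X ∈ L
  fix : ∀ X ∈ L, Q X = X
  kills : ∀ l ∈ L, Kills l (qf β Q)
  comm : ∀ D, Skew β D → Kills D (qf β Q) → ∀ l ∈ L, (D - Q D) * l = l * (D - Q D)
  conj : ∀ g g', (∀ X ∈ L, g * X * g' ∈ L) → (∀ X ∈ L, g' * X * g ∈ L) →
    ∀ X, Q (g * X * g') = g * Q X * g'

lemma proj_data {K : Type} [Field K] {β : Matrix ι ι K} (hβ : IsUnit β.det)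
    {L : Submodule K (Matrix ι ι K)} (hnd : ND L) (hlie : ∀ X ∈ L, ∀ Y ∈ L, X * Y - Y * X ∈ L)
    (hsk : ∀ X ∈ L, Skew β X) : ∃ Q : Matrix ι ι K →ₗ[K] Matrix ι ι K, PD β L Q := by
  obtain ⟨Q, h1, h2, h3⟩ := exists_proj hnd
  have h4 : ∀ l ∈ L, ∀ X, Q (l * X - X * l) = l * Q X - Q X * l :=
    fun l hl X => proj_ad hnd hlie h1 h3 hl X
  exact ⟨Q, h1, h2, fun l hl => (kills_qf_iff hβ (hsk l hl) Q).2 (h4 l hl),
    fun D hD hk l hl => comm_compl h1 h2 h4 ((kills_qf_iff hβ hD Q).1 hk) hl,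
    fun g g' hg hg' X => proj_conj hnd h1 h3 hg hg' X⟩

/-- The rational operators which kill the forms in `A`. -/
def KQ (w : ℕ) (A : ∀ n : ℕ, Set ((Fin n → ι) → ℚ)) : Submodule ℚ (Matrix ι ι ℚ) where
  carrier := {D | ∀ n m : ℕ, 2 * m = n * w → ∀ a ∈ A n, Kills D a}
  add_mem' := fun h h' n m hm a ha => (h n m hm a ha).add (h' n m hm a ha)
  zero_mem' := fun _ _ _ _ _ => Kills.zero
  smul_mem' := fun c _ h n m hm a ha => (h n m hm a ha).smul c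

/-- The operators with coefficients in `F` which kill the forms in `A`. -/
def KF (F : Type) [Field F] (w : ℕ) (A : ∀ n : ℕ, Set ((Fin n → ι) → ℚ)) :
    Submodule F (Matrix ι ι F) where
  carrier := {D | ∀ n m : ℕ, 2 * m = n * w → ∀ a ∈ A n, Kills D (cst F a)}
  add_mem' := fun h h' n m hm a ha => (h n m hm a ha).add (h' n m hm a ha)
  zero_mem' := fun _ _ _ _ _ => Kills.zero
  smul_mem' := fun c _ h n m hm a ha => (h n m hm a ha).smul c

/-- The centre of the algebra of the operators `e` with `β(e x, y)` in the span of `A`. -/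
def ZA (β : Matrix ι ι ℚ) (A : ∀ n : ℕ, Set ((Fin n → ι) → ℚ)) : Submodule ℚ (Matrix ι ι ℚ) where
  carrier := {z | bil β z ∈ Submodule.span ℚ (A 2) ∧
    ∀ e, bil β e ∈ Submodule.span ℚ (A 2) → z * e = e * z}
  add_mem' := by
    rintro a b ⟨ha, ha'⟩ ⟨hb, hb'⟩
    refine ⟨?_, fun e he => by rw [add_mul, mul_add, ha' e he, hb' e he]⟩
    have : bil β (a + b) = bil β a + bil β b := by
      funext i
      simp only [bil, Matrix.transpose_add, Matrix.add_mul, Matrix.add_apply, Pi.add_apply]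
    rw [this]
    exact Submodule.add_mem _ ha hb
  zero_mem' := by
    refine ⟨?_, fun e _ => by rw [zero_mul, mul_zero]⟩
    have : bil β (0 : Matrix ι ι ℚ) = 0 := by
      funext i
      simp [bil]
    rw [this]
    exact Submodule.zero_mem _
  smul_mem' := by
    rintro c a ⟨ha, ha'⟩
    refine ⟨?_, fun e he => by rw [smul_mul_assoc, mul_smul_comm, ha' e he]⟩
    have : bil β (c • a) = c • bil β a := by
      funext i
      simp only [bil, Matrix.transpose_smul, Matrix.smul_mul, Matrix.smul_apply, Pi.smul_apply]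
    rw [this]
    exact Submodule.smul_mem _ _ ha

lemma fn_bil {F : Type} [Field F] [CharZero F] (φ : F →ₗ[ℚ] ℚ) (β : Matrix ι ι ℚ)
    (c : Matrix ι ι F) : fn φ (bil (cM F β) c) = bil β (fM φ c) := by
  funext i
  have h1 := congrFun (congrFun (fM_mul_cM φ cᵀ β) (i 0)) (i 1)
  exact h1

lemma cM_zero {F : Type} [Field F] [CharZero F] : cM F (0 : Matrix ι ι ℚ) = 0 := by
  ext i j
  rw [cM_apply, Matrix.zero_apply, Matrix.zero_apply, Rat.cast_zero]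

/-- Skew and self-adjoint operators are zero. -/
lemma eq_zero_of_selfAdjoint {β z : Matrix ι ι ℚ} (hβ : IsUnit β.det) (h : zᵀ * β = β * z)
    (hz : Skew β z) : z = 0 := by
  have h2 : β * z + β * z = 0 := by
    have h3 : zᵀ * β + β * z = 0 := hz
    rwa [h] at h3
  have h3 : (2 : ℚ) • (β * z) = 0 := by rw [two_smul]; exact h2
  have h4 : β * z = 0 := by
    rcases smul_eq_zero.1 h3 with h5 | h5
    · norm_num at h5
    · exact h5
  have h6 := congrArg (β⁻¹ * ·) h4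
  simp only [← Matrix.mul_assoc, Matrix.nonsing_inv_mul _ hβ, Matrix.one_mul,
    Matrix.mul_zero] at h6
  exact h6

section hodge

variable {H : PolHS ι} {A : ∀ n : ℕ, Set ((Fin n → ι) → ℚ)}

lemma KH_le (hA : ∀ n m : ℕ, 2 * m = n * H.w → ∀ a ∈ A n, IsHodge H m a) {D : Matrix ι ι ℚ}
    (hD : D ∈ KH H) : D ∈ KQ H.w A := fun n m hm a ha => hD n m a hm (hA n m hm a ha)

lemma KH_lie : ∀ X ∈ KH H, ∀ Y ∈ KH H, X * Y - Y * X ∈ KH H :=
  fun _ hX _ hY n m a hm ha => (hX n m a hm ha).bracket (hY n m a hm ha)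

lemma skew_of_KQ (hβ : bil H.β 1 ∈ A 2) {D : Matrix ι ι ℚ} (hD : D ∈ KQ H.w A) : Skew H.β D :=
  kills_bil_one.1 (hD 2 H.w rfl _ hβ)

/-- the decomposition -/
lemma decomp_H (hA : ∀ n m : ℕ, 2 * m = n * H.w → ∀ a ∈ A n, IsHodge H m a)
    (hβ : bil H.β 1 ∈ A 2) (h2 : ∀ a : (Fin 2 → ι) → ℚ, IsHodge H H.w a → a ∈ Submodule.span ℚ (A 2))
    {Q : Matrix ι ι ℚ →ₗ[ℚ] Matrix ι ι ℚ} (hQ : PD H.β (KH H) Q)
    (hq : qf H.β Q ∈ Submodule.span ℚ (A 4))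
    {D : Matrix ι ι ℚ} (hD : D ∈ KQ H.w A) : ∃ l ∈ KH H, ∃ c ∈ KQ H.w A, D = l + c ∧
      bil H.β c ∈ Submodule.span ℚ (A 2) := by
  have hkill : Kills D (qf H.β Q) := kills_span (fun a ha => hD 4 (2 * H.w) (by ring) a ha) hq
  have hcomm := hQ.comm D (skew_of_KQ hβ hD) hkill
  refine ⟨Q D, hQ.mem D, D - Q D, (KQ H.w A).sub_mem hD (KH_le hA (hQ.mem D)), by abel, ?_⟩
  refine h2 _ (hodge_of_killed rfl fun l hl => kills_of_comm (skew_of_mem hl) (hcomm l hl).symm)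

lemma comm_of_span (hβ : bil H.β 1 ∈ A 2) {X e : Matrix ι ι ℚ} (hX : X ∈ KQ H.w A)
    (he : bil H.β e ∈ Submodule.span ℚ (A 2)) : X * e = e * X :=
  comm_of_kills (beta_unit H) (skew_of_KQ hβ hX)
    (kills_span (fun a ha => hX 2 H.w rfl a ha) he)

/-- **The Hodge side.** -/
theorem hodge_side (hA : ∀ n m : ℕ, 2 * m = n * H.w → ∀ a ∈ A n, IsHodge H m a)
    (hβ : bil H.β 1 ∈ A 2) (h2 : ∀ a : (Fin 2 → ι) → ℚ, IsHodge H H.w a → a ∈ Submodule.span ℚ (A 2))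
    {Q : Matrix ι ι ℚ →ₗ[ℚ] Matrix ι ι ℚ} (hQ : PD H.β (KH H) Q)
    (hq : qf H.β Q ∈ Submodule.span ℚ (A 4)) :
    (∀ X ∈ KQ H.w A, ∀ Y ∈ KQ H.w A, X * Y - Y * X ∈ KH H) ∧
      ((∀ z ∈ ZA H.β A, z ∈ KQ H.w A → z ∈ KH H) → ∀ X ∈ KQ H.w A, X ∈ KH H) := by
  constructor
  · intro X hX Y hY
    obtain ⟨l, hl, c, hc, rfl, hcb⟩ := decomp_H hA hβ h2 hQ hq hX
    obtain ⟨l', hl', c', hc', rfl, hcb'⟩ := decomp_H hA hβ h2 hQ hq hY
    have e1 := comm_of_span hβ (KH_le hA hl) hcb'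
    have e2 := comm_of_span hβ (KH_le hA hl') hcb
    have e3 := comm_of_span hβ hc hcb'
    have h5 : (l + c) * (l' + c') - (l' + c') * (l + c) = l * l' - l' * l := by
      rw [add_mul, mul_add, mul_add, add_mul, mul_add, mul_add, e1, e2, e3]
      abel
    rw [h5]
    exact KH_lie l hl l' hl'
  · intro hz X hX
    obtain ⟨l, hl, c, hc, rfl, hcb⟩ := decomp_H hA hβ h2 hQ hq hX
    refine (KH H).add_mem hl (hz c ⟨hcb, fun e he => comm_of_span hβ hc he⟩ hc)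

end hodge

section tate

variable {H : PolHS ι} {A : ∀ n : ℕ, Set ((Fin n → ι) → ℚ)} {p : ℕ} [hp : Fact p.Prime]
  {Γ : Type} [Group Γ] [TopologicalSpace Γ] [IsTopologicalGroup Γ] [CompactSpace Γ]
  {ρ : Γ →* Matrix ι ι ℚ_[p]} {μ : Γ →* ℚ_[p]}

lemma beta_unit' (F : Type) [Field F] [CharZero F] (H : PolHS ι) : IsUnit (cM F H.β).det := by
  have h3 : (cM F H.β).det = ((H.β.det : ℚ) : F) := ((Rat.castHom F).map_det H.β).symm
  rw [h3, isUnit_iff_ne_zero]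
  have h1 := (beta_unit H).ne_zero
  exact_mod_cast h1

lemma LT_le (hA : ∀ n m : ℕ, 2 * m = n * H.w → ∀ a ∈ A n, IsTate ρ μ m (cst ℚ_[p] a))
    {D : Matrix ι ι ℚ_[p]} (hD : D ∈ LT H.w ρ μ) : D ∈ KF ℚ_[p] H.w A :=
  fun n m hm a ha => hD n m _ hm (hA n m hm a ha)

lemma skew_of_KF {F : Type} [Field F] [CharZero F] (hβ : bil H.β 1 ∈ A 2) {D : Matrix ι ι F}
    (hD : D ∈ KF F H.w A) : Skew (cM F H.β) D := by
  have h1 := hD 2 H.w rfl _ hβ
  rw [cst_bil, cM_one] at h1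
  exact kills_bil_one.1 h1

lemma comm_of_span' {F : Type} [Field F] [CharZero F] (hβ : bil H.β 1 ∈ A 2) {X e : Matrix ι ι F}
    (hX : X ∈ KF F H.w A)
    (he : bil (cM F H.β) e ∈ Submodule.span F (cst F '' (A 2))) : X * e = e * X :=
  comm_of_kills (beta_unit' F H) (skew_of_KF hβ hX)
    (kills_span (by rintro _ ⟨a, ha, rfl⟩; exact hX 2 H.w rfl a ha) he)

lemma decomp_T (hA : ∀ n m : ℕ, 2 * m = n * H.w → ∀ a ∈ A n, IsTate ρ μ m (cst ℚ_[p] a))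
    (hρ : Continuous ρ) (hμ : Continuous μ)
    (hsim : ∀ g, (ρ g)ᵀ * cM ℚ_[p] H.β * ρ g = μ g ^ H.w • cM ℚ_[p] H.β)
    (hβ : bil H.β 1 ∈ A 2)
    (h2 : ∀ t : (Fin 2 → ι) → ℚ_[p], IsTate ρ μ H.w t →
      t ∈ Submodule.span ℚ_[p] (cst ℚ_[p] '' (A 2)))
    {Q : Matrix ι ι ℚ_[p] →ₗ[ℚ_[p]] Matrix ι ι ℚ_[p]} (hQ : PD (cM ℚ_[p] H.β) (LT H.w ρ μ) Q)
    (hq : qf (cM ℚ_[p] H.β) Q ∈ Submodule.span ℚ_[p] (cst ℚ_[p] '' (A 4)))
    {D : Matrix ι ι ℚ_[p]} (hD : D ∈ KF ℚ_[p] H.w A) : ∃ l ∈ LT H.w ρ μ, ∃ c ∈ KF ℚ_[p] H.w A,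
      D = l + c ∧ bil (cM ℚ_[p] H.β) c ∈ Submodule.span ℚ_[p] (cst ℚ_[p] '' (A 2)) := by
  have hkill : Kills D (qf (cM ℚ_[p] H.β) Q) :=
    kills_span (by rintro _ ⟨a, ha, rfl⟩; exact hD 4 (2 * H.w) (by ring) a ha) hq
  have hcomm := hQ.comm D (skew_of_KF hβ hD) hkill
  refine ⟨Q D, hQ.mem D, D - Q D, (KF ℚ_[p] H.w A).sub_mem hD (LT_le hA (hQ.mem D)), by abel, ?_⟩
  exact h2 _ (bil_tate hsim (nearGroup_finiteIndex ρ hρ μ hμ)
    (exists_comm H.w ρ μ fun l hl => hcomm l hl))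

/-- the quartic form of the projector is a Tate form -/
lemma qf_tate (hsim : ∀ g, (ρ g)ᵀ * cM ℚ_[p] H.β * ρ g = μ g ^ H.w • cM ℚ_[p] H.β)
    {Q : Matrix ι ι ℚ_[p] →ₗ[ℚ_[p]] Matrix ι ι ℚ_[p]} (hQ : PD (cM ℚ_[p] H.β) (LT H.w ρ μ) Q) :
    IsTate ρ μ (2 * H.w) (qf (cM ℚ_[p] H.β) Q) := by
  refine ⟨⊤, inferInstance, fun g _ v => ?_⟩
  rw [qf_inv (hsim g) (rho_inv_mul ρ g) Q (hQ.conj _ _ (LT_conj H.w ρ μ g) fun X hX => by
    have := LT_conj H.w ρ μ g⁻¹ X hX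
    rwa [inv_inv] at this), ← pow_mul, mul_comm H.w 2]

/-- **The Tate side.** -/
theorem tate_side (hA : ∀ n m : ℕ, 2 * m = n * H.w → ∀ a ∈ A n, IsTate ρ μ m (cst ℚ_[p] a))
    (hρ : Continuous ρ) (hμ : Continuous μ)
    (hsim : ∀ g, (ρ g)ᵀ * cM ℚ_[p] H.β * ρ g = μ g ^ H.w • cM ℚ_[p] H.β)
    (hβ : bil H.β 1 ∈ A 2)
    (h2 : ∀ t : (Fin 2 → ι) → ℚ_[p], IsTate ρ μ H.w t →
      t ∈ Submodule.span ℚ_[p] (cst ℚ_[p] '' (A 2)))
    {Q : Matrix ι ι ℚ_[p] →ₗ[ℚ_[p]] Matrix ι ι ℚ_[p]} (hQ : PD (cM ℚ_[p] H.β) (LT H.w ρ μ) Q)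
    (hq : qf (cM ℚ_[p] H.β) Q ∈ Submodule.span ℚ_[p] (cst ℚ_[p] '' (A 4))) :
    (∀ X ∈ KF ℚ_[p] H.w A, ∀ Y ∈ KF ℚ_[p] H.w A, X * Y - Y * X ∈ LT H.w ρ μ) ∧
      ((∀ z ∈ ZA H.β A, z ∈ KQ H.w A → cM ℚ_[p] z ∈ LT H.w ρ μ) →
        ∀ X ∈ KF ℚ_[p] H.w A, X ∈ LT H.w ρ μ) := by
  constructor
  · intro X hX Y hY
    obtain ⟨l, hl, c, hc, rfl, hcb⟩ := decomp_T hA hρ hμ hsim hβ h2 hQ hq hX
    obtain ⟨l', hl', c', hc', rfl, hcb'⟩ := decomp_T hA hρ hμ hsim hβ h2 hQ hq hY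
    have e1 := comm_of_span' hβ (LT_le hA hl) hcb'
    have e2 := comm_of_span' hβ (LT_le hA hl') hcb
    have e3 := comm_of_span' hβ hc hcb'
    have h5 : (l + c) * (l' + c') - (l' + c') * (l + c) = l * l' - l' * l := by
      rw [add_mul, mul_add, mul_add, add_mul, mul_add, mul_add, e1, e2, e3]
      abel
    rw [h5]
    exact LT_lie H.w ρ μ l hl l' hl'
  · intro hz X hX
    obtain ⟨l, hl, c, hc, rfl, hcb⟩ := decomp_T hA hρ hμ hsim hβ h2 hQ hq hX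
    refine (LT H.w ρ μ).add_mem hl ?_
    have h1 : c ∈ spM ℚ_[p] (ZA H.β A ⊓ KQ H.w A) := by
      refine mem_of_fM fun φ => ⟨⟨?_, fun e he => ?_⟩, fun n m hm a ha => ?_⟩
      · rw [← fn_bil]
        exact fn_mem (span_cst_le _ hcb) φ
      · have h3 : bil (cM ℚ_[p] H.β) (cM ℚ_[p] e) ∈
            Submodule.span ℚ_[p] (cst ℚ_[p] '' (A 2)) := by
          rw [← cst_bil]
          exact spF_le _ (Submodule.subset_span ⟨_, he, rfl⟩)
        have h4 := comm_of_span' hβ hc h3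
        have h5 := congrArg (fM φ) h4
        rwa [fM_mul_cM, fM_cM_mul] at h5
      · exact kills_fM (hc n m hm a ha) φ
    rw [spM] at h1
    refine (Submodule.span_le.2 ?_) h1
    rintro _ ⟨z, ⟨hz1, hz2⟩, rfl⟩
    exact hz z hz1 hz2

lemma isTate_span {n m : ℕ} {S : Set ((Fin n → ι) → ℚ_[p])} (h : ∀ a ∈ S, IsTate ρ μ m a)
    {t : (Fin n → ι) → ℚ_[p]} (ht : t ∈ Submodule.span ℚ_[p] S) : IsTate ρ μ m t := by
  induction ht using Submodule.span_induction with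
  | mem x hx => exact h x hx
  | zero => exact ⟨⊤, inferInstance, fun g _ v => by rw [ev_zero_left, ev_zero_left, mul_zero]⟩
  | add x y _ _ hx hy =>
    obtain ⟨Δ, hΔ, h1⟩ := hx
    obtain ⟨Δ', hΔ', h2⟩ := hy
    refine ⟨Δ ⊓ Δ', inferInstance, fun g hg v => ?_⟩
    rw [ev_add_left, ev_add_left, h1 g hg.1, h2 g hg.2, mul_add]
  | smul c x _ hx =>
    obtain ⟨Δ, hΔ, h1⟩ := hx
    refine ⟨Δ, hΔ, fun g hg v => ?_⟩
    rw [ev_smul_left, ev_smul_left, h1 g hg]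
    ring

/-- Everything together: Hodge classes and Tate classes. -/
theorem both (hAH : ∀ n m : ℕ, 2 * m = n * H.w → ∀ a ∈ A n, IsHodge H m a)
    (hH : ∀ X ∈ KQ H.w A, X ∈ KH H) (hT : ∀ X ∈ KF ℚ_[p] H.w A, X ∈ LT H.w ρ μ)
    (hLT : ∀ X ∈ LT H.w ρ μ, X ∈ KF ℚ_[p] H.w A)
    (hρ : Continuous ρ) (hμ : Continuous μ) {n m : ℕ} (hm : 2 * m = n * H.w) :
    (∀ a : (Fin n → ι) → ℚ, IsHodge H m a → IsTate ρ μ m (cst ℚ_[p] a)) ∧
      ∀ t : (Fin n → ι) → ℚ_[p], IsTate ρ μ m t →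
        t ∈ Submodule.span ℚ_[p] (cst ℚ_[p] '' {a | IsHodge H m a}) := by
  constructor
  · intro a ha
    refine ⟨nearGroup ρ μ, nearGroup_finiteIndex ρ hρ μ hμ,
      tate_of_killed H.w ρ μ hm fun D hD => ?_⟩
    have h1 : D ∈ spM ℚ_[p] (KH H) := mem_of_fM fun φ =>
      hH _ fun n m hm a ha => kills_fM (hLT D hD n m hm a ha) φ
    exact kills_of_mem_spM h1 fun E hE => hE n m a hm ha
  · intro t ht
    refine (spF_le _) (mem_of_fn fun φ => Submodule.subset_span ?_)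
    refine hodge_of_killed hm fun D hD => ?_
    have h1 : cM ℚ_[p] D ∈ LT H.w ρ μ :=
      hT _ fun n m hm a ha => kills_cst_iff.2 (hD n m a hm (hAH n m hm a ha))
    exact kills_fn (h1 n m t hm ht) φ

end tate

end Run7.h877.MT
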